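import Mathlib
set_option autoImplicit false

namespace Pool.Agent.Helper774.PQ

theorem ar_TJ (δ J rho τ c c' q : ℝ) (hδ0 : 0 < δ) (hJ1 : 2 + 4 * δ ≤ δ * J)
    (h1 : c' ≤ (1 + δ / 8) * J * rho) (h2 : c ≤ c' + q) (hq : q ≤ rho) (hτrho : rho ≤ τ)
    (h7 : 0 ≤ rho) (hJ : 0 < J) : c ≤ (1 + δ) * J * τ := by
  have h4 : (1 + δ / 8) * J * rho ≤ (1 + δ / 8) * J * τ :=
    mul_le_mul_of_nonneg_left hτrho (by positivity)
  have hτ0 : 0 ≤ τ := h7.trans hτrho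
  have h8 : (2 + 4 * δ) * τ ≤ (δ * J) * τ := mul_le_mul_of_nonneg_right hJ1 hτ0
  have e1 : (1 + δ / 8) * J * τ = J * τ + 1 / 8 * ((δ * J) * τ) := by ring
  have e2 : (1 + δ) * J * τ = J * τ + (δ * J) * τ := by ring
  have e3 : (2 + 4 * δ) * τ = 2 * τ + 4 * (δ * τ) := by ring
  have h9 : 0 ≤ δ * τ := by positivity
  rw [e1] at h4
  rw [e3] at h8
  rw [e2]
  linarith

theorem ar_half (δ θ b P y c q : ℝ) (hδ : 0 < δ) (hδ8 : δ ≤ 1 / 8) (hθ0 : 0 < θ)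
    (hθ64 : θ ≤ 1 / 64) (hP : 0 ≤ P) (hq : 8 * q ≤ P) (hbp : b < θ * P) (hy0 : 0 ≤ y)
    (hy : y ≤ 2 * (θ ^ 2 * b))
    (hc : c ≤ (1 + δ / 8) * y + q) : 2 * c ≤ P := by
  have h2 : (1 + δ / 8) * y ≤ 2 * y := mul_le_mul_of_nonneg_right (by linarith) hy0
  have h4 : θ ^ 2 * b ≤ θ ^ 2 * (θ * P) := mul_le_mul_of_nonneg_left hbp.le (sq_nonneg θ)
  have h5 : θ ^ 2 ≤ (1 / 64) ^ 2 := pow_le_pow_left₀ hθ0.le hθ64 2
  have h6 : θ * P ≤ 1 / 64 * P := mul_le_mul_of_nonneg_right hθ64 (by linarith)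
  have h7 : θ ^ 2 * (θ * P) ≤ (1 / 64) ^ 2 * (1 / 64 * P) := by
    apply mul_le_mul h5 h6 (by positivity) (by positivity)
  linarith

theorem ar_ratio (δ K k rho τ c c' q : ℝ) (hδ8 : δ ≤ 1 / 8) (hK : 4 ≤ K)
    (hk : 0 ≤ k) (hrho : 0 ≤ rho) (hq : q ≤ rho)
    (hτ : rho ≤ τ) (h2 : 3 * K ≤ 8 * k) (hc : c ≤ (1 + δ / 8) * K * rho + q)
    (hc' : 1 + k * τ ≤ c') : c ≤ 5 * c' := by
  have h3 : k * rho ≤ k * τ := mul_le_mul_of_nonneg_left hτ hk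
  have h4 : 3 * K * rho ≤ 8 * k * rho := mul_le_mul_of_nonneg_right h2 hrho
  have h6 : 0 ≤ K * rho := by positivity
  have h7 : 4 * rho ≤ K * rho := mul_le_mul_of_nonneg_right hK hrho
  have h5 : (1 + δ / 8) * (K * rho) ≤ 9 / 8 * (K * rho) :=
    mul_le_mul_of_nonneg_right (by linarith) h6
  have e : (1 + δ / 8) * K * rho = (1 + δ / 8) * (K * rho) := by ring
  have e3 : 3 * K * rho = 3 * (K * rho) := by ring
  have e4 : 8 * k * rho = 8 * (k * rho) := by ring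
  rw [e] at hc
  rw [e3, e4] at h4
  linarith

/-- q is at most about half of n -/
theorem ar_q (p q n ξ : ℝ) (hp : 0 < p) (hn : 0 < n) (hξ : 0 < ξ) (hξ1 : ξ ≤ 1 / 100) (hq0 : 0 < q)
    (hq : q ≤ (1 + ξ) * p) (hm : p * q ≤ (1 + ξ) * (n ^ 2 / 4)) : q ≤ 51 / 100 * n := by
  have h1 : q * q ≤ (1 + ξ) * p * q := mul_le_mul_of_nonneg_right hq hq0.le
  have h2 : (1 + ξ) * (p * q) ≤ (1 + ξ) * ((1 + ξ) * (n ^ 2 / 4)) :=
    mul_le_mul_of_nonneg_left hm (by linarith)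
  have h3 : (1 + ξ) * (1 + ξ) ≤ (101 / 100) * (101 / 100) := by
    apply mul_le_mul <;> linarith
  have h4 : (1 + ξ) * (1 + ξ) * (n ^ 2 / 4) ≤ (101 / 100) * (101 / 100) * (n ^ 2 / 4) :=
    mul_le_mul_of_nonneg_right h3 (by positivity)
  have h5 : q ^ 2 ≤ (51 / 100 * n) ^ 2 := by nlinarith [sq_nonneg n]
  exact le_of_sq_le_sq h5 (by positivity)

/-- n is at most 2.3 p -/
theorem ar_n (p q n ξ : ℝ) (hp : 0 < p) (hn : 0 < n) (hξ : 0 < ξ) (hξ1 : ξ ≤ 1 / 100)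
    (hq : q ≤ (1 + ξ) * p) (hm : n ^ 2 / 5 ≤ p * q) : n ≤ 23 / 10 * p := by
  have h1 : p * q ≤ p * ((1 + ξ) * p) := mul_le_mul_of_nonneg_left hq hp.le
  have h2 : p * ((1 + ξ) * p) ≤ p * ((101 / 100) * p) := by
    apply mul_le_mul_of_nonneg_left _ hp.le
    apply mul_le_mul_of_nonneg_right _ hp.le
    linarith
  have h5 : n ^ 2 ≤ (23 / 10 * p) ^ 2 := by nlinarith [sq_nonneg p]
  exact le_of_sq_le_sq h5 (by positivity)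

theorem ar_k (δ τ rho n p h k : ℝ) (hδ0 : 0 < δ) (hδ : δ ≤ 1 / 100) (hτ : τ ≤ (1 + δ / 8) * rho)
    (hrho : rho ≤ n) (hn : 0 < n) (hnp : n ≤ 23 / 10 * p) (hp : 0 < p) (hh : p ≤ h) (hk : 0 ≤ k)
    (h2 : 2 * (k * h) ≤ (1 + 2 * δ) * τ) : k < 2 := by
  have h4 : (1 + 2 * δ) * τ ≤ (1 + 2 * δ) * ((1 + δ / 8) * rho) :=
    mul_le_mul_of_nonneg_left hτ (by positivity)
  have h5 : (1 + 2 * δ) * ((1 + δ / 8) * rho) ≤ (1 + 2 * δ) * ((1 + δ / 8) * n) := by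
    apply mul_le_mul_of_nonneg_left _ (by positivity)
    exact mul_le_mul_of_nonneg_left hrho (by positivity)
  have h6 : (1 + 2 * δ) * (1 + δ / 8) ≤ 11 / 10 := by nlinarith
  have h7 : (1 + 2 * δ) * (1 + δ / 8) * n ≤ 11 / 10 * (23 / 10 * p) :=
    mul_le_mul h6 hnp hn.le (by norm_num)
  have h8 : k * p ≤ k * h := mul_le_mul_of_nonneg_left hh hk
  have h9 : 2 * (k * p) ≤ 11 / 10 * (23 / 10 * p) := by nlinarith
  by_contra hc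
  push Not at hc
  have : 2 * p ≤ k * p := mul_le_mul_of_nonneg_right hc hp.le
  linarith

theorem ar_R (δ τ rho h : ℝ) (hδ0 : 0 < δ) (hδ : δ ≤ 1 / 100) (hτ : τ ≤ (1 + δ / 8) * rho)
    (hrho : 0 ≤ rho)
    (h2 : 2 * h ≤ (1 + 2 * δ) * τ) : 19 / 10 * h ≤ rho := by
  have h4 : (1 + 2 * δ) * τ ≤ (1 + 2 * δ) * ((1 + δ / 8) * rho) :=
    mul_le_mul_of_nonneg_left hτ (by positivity)
  have h6 : (1 + 2 * δ) * (1 + δ / 8) ≤ 102 / 100 + 1 / 500 := by nlinarith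
  have h7 : (1 + 2 * δ) * (1 + δ / 8) * rho ≤ (102 / 100 + 1 / 500) * rho :=
    mul_le_mul_of_nonneg_right h6 hrho
  nlinarith

theorem ar_full (δ τ rho n P : ℝ) (hδ0 : 0 < δ) (hδ : δ ≤ 1 / 100) (hτ : τ ≤ (1 + δ / 8) * rho)
    (hrho : rho ≤ n) (hn : 8 ≤ n) (hP : n ^ 2 / 5 ≤ P) (k : ℝ) (hk : 1 ≤ k)
    (h2 : 2 * (k * P) ≤ (1 + 2 * δ) * τ) : False := by
  have h4 : (1 + 2 * δ) * τ ≤ (1 + 2 * δ) * ((1 + δ / 8) * rho) :=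
    mul_le_mul_of_nonneg_left hτ (by positivity)
  have h5 : (1 + 2 * δ) * ((1 + δ / 8) * rho) ≤ (1 + 2 * δ) * ((1 + δ / 8) * n) := by
    apply mul_le_mul_of_nonneg_left _ (by positivity)
    exact mul_le_mul_of_nonneg_left hrho (by positivity)
  have h6 : (1 + 2 * δ) * (1 + δ / 8) ≤ 11 / 10 := by nlinarith
  have h7 : (1 + 2 * δ) * (1 + δ / 8) * n ≤ 11 / 10 * n :=
    mul_le_mul_of_nonneg_right h6 (by linarith)
  have h8 : 8 * n ≤ n ^ 2 := by nlinarith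
  have hP0 : 0 ≤ P := by nlinarith
  have h9 : 1 * P ≤ k * P := mul_le_mul_of_nonneg_right hk hP0
  nlinarith

end Pool.Agent.Helper774.PQ
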