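import Mathlib
import Pool.Agent.Helper774.PQ.Kneser

set_option autoImplicit false
set_option linter.unusedSectionVars false

open Finset
open scoped Pointwise

namespace Pool.Agent.Helper774.PQ

theorem card_sub (p q : ℕ) (hp : p.Prime) (hq : q.Prime) (H : AddSubgroup (ZMod (p * q))) :
    Nat.card H = 1 ∨ Nat.card H = p ∨ Nat.card H = q ∨ Nat.card H = p * q := by
  have h1 := AddSubgroup.card_addSubgroup_dvd_card H
  rw [Nat.card_zmod] at h1
  rw [Nat.dvd_mul] at h1
  obtain ⟨a, b, ha, hb, hab⟩ := h1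
  rw [Nat.dvd_prime hp] at ha
  rw [Nat.dvd_prime hq] at hb
  rcases ha with rfl | rfl <;> rcases hb with rfl | rfl <;> simp_all

theorem card_eq_top {G : Type*} [AddCommGroup G] [Finite G] (H : AddSubgroup G)
    (h : Nat.card H = Nat.card G) : H = ⊤ := AddSubgroup.eq_top_of_card_eq H h

theorem unit_mem_top (m : ℕ) (H : AddSubgroup (ZMod m)) (t : ZMod m) (ht : IsUnit t)
    (h : t ∈ H) : H = ⊤ := by
  rw [AddSubgroup.eq_top_iff']
  intro x
  obtain ⟨u, rfl⟩ := ht
  have h1 : x = ((x * (↑u⁻¹ : ZMod m)).cast : ℤ) • (u : ZMod m) := by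
    rw [zsmul_eq_mul, ZMod.intCast_cast, ZMod.cast_id]
    rw [mul_assoc, Units.inv_mul, mul_one]
  rw [h1]
  exact H.zsmul_mem h _

theorem stab_top_univ {G : Type*} [AddCommGroup G] [Fintype G] [DecidableEq G] (C : Finset G)
    (hC : C.Nonempty) (h : Kneser.stab C = ⊤) : C = univ := by
  obtain ⟨c, hc⟩ := hC
  rw [Finset.eq_univ_iff_forall]
  intro x
  have h1 : x - c ∈ Kneser.stab C := by rw [h]; exact AddSubgroup.mem_top _
  have h2 := Kneser.stab_add h1 hc
  rwa [add_sub_cancel] at h2

theorem card_fs {G : Type*} [AddCommGroup G] [Fintype G] [DecidableEq G] (H : AddSubgroup G) :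
    (Kneser.fs H).card = Nat.card H := by
  have h1 : ((Kneser.fs H : Finset G) : Set G) = (H : Set G) := by
    ext x
    rw [Finset.mem_coe, Kneser.mem_fs, SetLike.mem_coe]
  have h2 : Nat.card H = Nat.card (H : Set G) := rfl
  rw [h2, ← h1, Nat.card_coe_set_eq, Set.ncard_coe_finset]

theorem kneser_weak (p q : ℕ) (hp : p.Prime) (hq : q.Prime) (hpq : p ≤ q) [NeZero (p * q)]
    (A B : Finset (ZMod (p * q))) (hA : A.Nonempty) (hB : B.Nonempty) (h : A + B ≠ univ) :
    A.card + B.card ≤ (A + B).card + q := by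
  have h1 := Kneser.kneser A B hA hB
  rw [card_fs] at h1
  rcases card_sub p q hp hq (Kneser.stab (A + B)) with h2 | h2 | h2 | h2
  · have := hq.one_lt
    omega
  · omega
  · omega
  · exfalso
    apply h
    apply stab_top_univ _ (hA.add hB)
    apply card_eq_top
    rw [h2, Nat.card_zmod]

theorem chowla (m : ℕ) [NeZero m] (A T : Finset (ZMod m)) (hA : A.Nonempty)
    (h0 : (0 : ZMod m) ∈ T) (hunit : ∀ t ∈ T, t ≠ 0 → IsUnit t) (h : A + T ≠ univ) :
    A.card + (T.card - 1) ≤ (A + T).card := by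
  have h1 := Kneser.kneser' A T hA ⟨0, h0⟩
  obtain ⟨H, hH⟩ : ∃ H, H = Kneser.stab (A + T) := ⟨_, rfl⟩
  rw [← hH] at h1
  have hHt : H ≠ ⊤ := by
    intro h2
    apply h
    apply stab_top_univ _ (hA.add ⟨0, h0⟩)
    rw [← hH, h2]
  have h3 : A.card ≤ (A + Kneser.fs H).card := by
    apply Finset.card_le_card
    intro x hx
    have := Finset.add_mem_add hx (Kneser.mem_fs.2 H.zero_mem)
    rwa [add_zero] at this
  have h4 : (Kneser.fs H).card + (T.erase 0).card ≤ (T + Kneser.fs H).card := by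
    rw [← Finset.card_union_of_disjoint]
    · apply Finset.card_le_card
      intro x hx
      rw [Finset.mem_union] at hx
      rcases hx with hx | hx
      · have := Finset.add_mem_add h0 hx
        rwa [zero_add] at this
      · have := Finset.add_mem_add (Finset.mem_of_mem_erase hx) (Kneser.mem_fs.2 H.zero_mem)
        rwa [add_zero] at this
    · rw [Finset.disjoint_left]
      intro x hx hx2
      rw [Finset.mem_erase] at hx2
      apply hHt
      exact unit_mem_top m H x (hunit x hx2.2 hx2.1) (Kneser.mem_fs.1 hx)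
  rw [Finset.card_erase_of_mem h0] at h4
  omega

end Pool.Agent.Helper774.PQ
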