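import Mathlib
import Pool.Agent.Helper398.IntStr

set_option autoImplicit false
set_option linter.unusedSectionVars false

open Finset
open scoped Pointwise

namespace Pool.Agent.Helper774.PQ

open Pool.Agent.Helper398

variable {Γ : Type*} [AddCommGroup Γ] [DecidableEq Γ] {Q : Type*} [AddCommGroup Q] [DecidableEq Q]

theorem residues_le' (z : Γ →+ ℤ) (u : Γ) (hu : 0 < z u) (π : Γ →+ Q) (hπ : π u = 0)
    (S : Finset Γ) : (S.image π).card ≤ ((u +ᵥ S) \ S).card := by
  have hsub : S.image π ⊆ ((u +ᵥ S) \ S).image π := by
    intro c hc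
    rw [Finset.mem_image] at hc
    obtain ⟨x0, hx0, hx0c⟩ := hc
    obtain ⟨F, hF⟩ : ∃ F, F = S.filter (fun x => π x = c) := ⟨_, rfl⟩
    have hFne : F.Nonempty := ⟨x0, by rw [hF, Finset.mem_filter]; exact ⟨hx0, hx0c⟩⟩
    obtain ⟨x, hx, hxmax⟩ := Finset.exists_max_image F z hFne
    have hxS : x ∈ S ∧ π x = c := by rw [hF, Finset.mem_filter] at hx; exact hx
    rw [Finset.mem_image]
    refine ⟨u + x, ?_, ?_⟩
    · rw [Finset.mem_sdiff]
      refine ⟨Finset.vadd_mem_vadd_finset hxS.1, ?_⟩
      intro h
      have h1 : u + x ∈ F := by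
        rw [hF, Finset.mem_filter]
        refine ⟨h, ?_⟩
        rw [map_add, hπ, zero_add, hxS.2]
      have h2 := hxmax _ h1
      rw [map_add] at h2
      omega
    · rw [map_add, hπ, zero_add, hxS.2]
  exact (Finset.card_le_card hsub).trans Finset.card_image_le

theorem residues_two' (z : Γ →+ ℤ) (u : Γ) (hu : 0 < z u) (π : Γ →+ Q) (hπ : π u = 0)
    (S W : Finset Γ) (h0 : S ⊆ W)
    (h1 : (u +ᵥ S) ⊆ W) (h2 : (-u +ᵥ S) ⊆ W) :
    S.card + 2 * (S.image π).card ≤ W.card := by
  obtain ⟨S', hS'⟩ : ∃ S', S' = S ∪ (u +ᵥ S) := ⟨_, rfl⟩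
  have ha := residues_le' z u hu π hπ S
  have hb : S'.card = S.card + ((u +ᵥ S) \ S).card := by
    rw [hS', ← Finset.union_sdiff_self_eq_union, Finset.card_union_of_disjoint Finset.disjoint_sdiff]
  obtain ⟨S'', hS''⟩ : ∃ S'', S'' = (-u +ᵥ S') := ⟨_, rfl⟩
  have hc := residues_le' z u hu π hπ S''
  have hd : u +ᵥ S'' = S' := by
    rw [hS'', ← add_vadd]
    simp
  rw [hd] at hc
  have he : (S' \ S'').card = (S'' \ S').card := by
    have h5 : S'.card = S''.card := by rw [hS'', Finset.card_vadd_finset]
    have h3 := Finset.card_sdiff_add_card_inter S' S''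
    have h4 := Finset.card_sdiff_add_card_inter S'' S'
    rw [Finset.inter_comm] at h4
    omega
  have hf : S.image π ⊆ S''.image π := by
    intro c hc
    rw [Finset.mem_image] at hc ⊢
    obtain ⟨x, hx, hxc⟩ := hc
    refine ⟨-u + x, ?_, ?_⟩
    · rw [hS'']
      apply Finset.vadd_mem_vadd_finset
      rw [hS', Finset.mem_union]
      exact Or.inl hx
    · rw [map_add, map_neg, hπ, neg_zero, zero_add, hxc]
  have hg := Finset.card_le_card hf
  have hh : S' ∪ (S'' \ S') ⊆ W := by
    apply Finset.union_subset
    · rw [hS']; exact Finset.union_subset h0 h1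
    · intro x hx
      rw [Finset.mem_sdiff, hS'', hS'] at hx
      rw [Finset.vadd_finset_union, Finset.mem_union, Finset.mem_union] at hx
      rcases hx.1 with h | h
      · exact h2 h
      · rw [← add_vadd] at h
        simp only [neg_add_cancel, zero_vadd] at h
        exact h0 h
  have hi := Finset.card_le_card hh
  rw [Finset.card_union_of_disjoint Finset.disjoint_sdiff] at hi
  omega

/-- The structure of symmetric sets with small iterated sumset in a group with a height. -/
theorem grp_structure (z : Γ →+ ℤ) (U : Finset Γ) (hneg : ∀ u ∈ U, -u ∈ U) (h0 : (0 : Γ) ∈ U)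
    (hz : ∀ u ∈ U, z u = 0 → u = 0)
    (hne : ∃ u ∈ U, u ≠ 0) (δ : ℝ) (hδ : 0 < δ) (hδ2 : δ < 1 / 4) (J : ℕ)
    (hJ : 1 + 4 * δ ≤ δ * J)
    (hU : ((it U J).card : ℝ) ≤ (1 + δ) * J * (U.card - 1)) :
    ∃ (lam : Γ) (k : ℕ) (K : AddSubgroup Γ), 0 < k ∧ Finite K ∧ (∀ v ∈ K, z v = 0) ∧
      2 * ((k * Nat.card K : ℕ) : ℝ) ≤ (1 + 2 * δ) * (U.card - 1) ∧
      ∀ u ∈ U, ∃ j : ℤ, |j| ≤ k ∧ u - j • lam ∈ K ∧ (j = 0 → u = 0) := by
  classical
  obtain ⟨us, hus, hmax⟩ := Finset.exists_max_image U z ⟨0, h0⟩
  have hMpos : 0 < z us := by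
    obtain ⟨u, hu, hu0⟩ := hne
    have h1 : z u ≠ 0 := fun h => hu0 (hz u hu h)
    rcases lt_or_gt_of_ne h1 with h | h
    · have := hmax _ (hneg u hu)
      rw [map_neg] at this
      omega
    · have := hmax _ hu
      omega
  have hmin : ∀ u ∈ U, -z us ≤ z u := by
    intro u hu
    have := hmax _ (hneg u hu)
    rw [map_neg] at this
    omega
  obtain ⟨π, hπ⟩ : ∃ π : Γ →+ Γ ⧸ AddSubgroup.zmultiples us, π = QuotientAddGroup.mk' _ := ⟨_, rfl⟩
  have hπk : ∀ x, π x = 0 ↔ ∃ n : ℤ, n • us = x := by
    intro x
    rw [hπ, QuotientAddGroup.mk'_apply, QuotientAddGroup.eq_zero_iff, AddSubgroup.mem_zmultiples_iff]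
  have hπu : π us = 0 := (hπk us).2 ⟨1, one_zsmul _⟩
  obtain ⟨X, hX⟩ : ∃ X, X = U.image π := ⟨_, rfl⟩
  have hX0 : (0 : Γ ⧸ AddSubgroup.zmultiples us) ∈ X := by
    rw [hX, Finset.mem_image]; exact ⟨0, h0, map_zero π⟩
  have hXneg : ∀ x ∈ X, -x ∈ X := by
    intro x hx
    rw [hX, Finset.mem_image] at hx ⊢
    obtain ⟨u, hu, rfl⟩ := hx
    exact ⟨-u, hneg u hu, map_neg π u⟩
  have hstep : ∀ j, (it U j).card + 2 * (it X j).card ≤ (it U (j + 1)).card := by
    intro j
    have h1 := residues_two' z us hMpos π hπu (it U j) (it U (j + 1)) (it_mono_succ U h0 j) (by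
      intro x hx
      rw [Finset.mem_vadd_finset] at hx
      obtain ⟨y, hy, rfl⟩ := hx
      rw [vadd_eq_add, add_comm us y]
      exact Finset.add_mem_add hy hus) (by
      intro x hx
      rw [Finset.mem_vadd_finset] at hx
      obtain ⟨y, hy, rfl⟩ := hx
      rw [vadd_eq_add, add_comm (-us) y]
      exact Finset.add_mem_add hy (hneg _ hus))
    rw [image_it, ← hX] at h1
    exact h1
  have hXU : U.card ≤ 2 * X.card + 1 := by
    have h1 : (U.erase us).card ≤ 2 * X.card := by
      have h2 : ∀ c ∈ X, ((U.erase us).filter (fun u => π u = c)).card ≤ 2 := by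
        intro c _
        by_contra hcon
        push Not at hcon
        obtain ⟨F, hF⟩ : ∃ F, F = (U.erase us).filter (fun u => π u = c) := ⟨_, rfl⟩
        rw [← hF] at hcon
        have hFm : ∀ u ∈ F, u ∈ U ∧ u ≠ us ∧ π u = c := by
          intro u hu
          rw [hF, Finset.mem_filter, Finset.mem_erase] at hu
          exact ⟨hu.1.2, hu.1.1, hu.2⟩
        -- differences are multiples of us
        have hpair : ∀ u ∈ F, ∀ v ∈ F, u ≠ v → u = v + us ∨ v = u + us := by
          intro u hu v hv huv
          have hu' := hFm u hu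
          have hv' := hFm v hv
          have h6 : π (u - v) = 0 := by rw [map_sub, hu'.2.2, hv'.2.2, sub_self]
          obtain ⟨n, hn⟩ := (hπk _).1 h6
          have h7 : z u - z v = n * z us := by
            rw [← map_sub, ← hn, map_zsmul, smul_eq_mul]
          have a1 := hmax u hu'.1
          have a2 := hmin u hu'.1
          have a3 := hmax v hv'.1
          have a4 := hmin v hv'.1
          have hn1 : n ≤ 2 := by
            by_contra hc
            push Not at hc
            nlinarith
          have hn2 : -2 ≤ n := by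
            by_contra hc
            push Not at hc
            nlinarith
          have hn3 : n ≠ 0 := by
            rintro rfl
            apply huv
            rw [zero_zsmul] at hn
            exact sub_eq_zero.1 hn.symm
          have hn4 : n ≠ 2 := by
            rintro rfl
            have h8 : z v = -z us := by linarith
            have h9 : z u = z us := by linarith
            have h10 : z (v + us) = 0 := by rw [map_add]; linarith
            have h11 : u = v + us + us := by
              have : u - v = us + us := by rw [← hn, two_zsmul]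
              rw [add_assoc, ← this]; abel
            -- the three term class is the exceptional one
            exact absurd h10 (by
              intro h12
              obtain ⟨w, hw, hw2⟩ : ∃ w ∈ F, w ≠ u ∧ w ≠ v := by
                by_contra hno
                push Not at hno
                have h13 : F ⊆ {u, v} := by
                  intro w hw
                  rw [Finset.mem_insert, Finset.mem_singleton]
                  by_cases hwu : w = u
                  · exact Or.inl hwu
                  · exact Or.inr (hno w hw hwu)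
                have h14 := (Finset.card_le_card h13).trans Finset.card_le_two
                omega
              have hw' := hFm w hw
              have h15 : π (u - w) = 0 := by rw [map_sub, hu'.2.2, hw'.2.2, sub_self]
              obtain ⟨n', hn'⟩ := (hπk _).1 h15
              have h16 : z u - z w = n' * z us := by
                rw [← map_sub, ← hn', map_zsmul, smul_eq_mul]
              have b1 := hmax w hw'.1
              have b2 := hmin w hw'.1
              have hn'1 : n' ≤ 2 := by
                by_contra hc
                push Not at hc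
                nlinarith
              have hn'2 : 0 ≤ n' := by
                by_contra hc
                push Not at hc
                nlinarith
              interval_cases n'
              · apply hw2.1
                rw [zero_zsmul] at hn'
                exact (sub_eq_zero.1 hn'.symm).symm
              · have h17 : z w = 0 := by linarith
                have h18 := hz w hw'.1 h17
                rw [one_zsmul] at hn'
                rw [h18, sub_zero] at hn'
                exact hu'.2.1 hn'.symm
              · apply hw2.2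
                have : u - w = u - v := by rw [← hn', hn]
                exact sub_right_injective this)
          have hn5 : n ≠ -2 := by
            rintro rfl
            have h8 : z u = -z us := by linarith
            have h9 : z v = z us := by linarith
            obtain ⟨w, hw, hw2⟩ : ∃ w ∈ F, w ≠ u ∧ w ≠ v := by
              by_contra hno
              push Not at hno
              have h13 : F ⊆ {u, v} := by
                intro w hw
                rw [Finset.mem_insert, Finset.mem_singleton]
                by_cases hwu : w = u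
                · exact Or.inl hwu
                · exact Or.inr (hno w hw hwu)
              have h14 := (Finset.card_le_card h13).trans Finset.card_le_two
              omega
            have hw' := hFm w hw
            have h15 : π (v - w) = 0 := by rw [map_sub, hv'.2.2, hw'.2.2, sub_self]
            obtain ⟨n', hn'⟩ := (hπk _).1 h15
            have h16 : z v - z w = n' * z us := by
              rw [← map_sub, ← hn', map_zsmul, smul_eq_mul]
            have b1 := hmax w hw'.1
            have b2 := hmin w hw'.1
            have hn'1 : n' ≤ 2 := by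
              by_contra hc
              push Not at hc
              nlinarith
            have hn'2 : 0 ≤ n' := by
              by_contra hc
              push Not at hc
              nlinarith
            interval_cases n'
            · apply hw2.2
              rw [zero_zsmul] at hn'
              exact (sub_eq_zero.1 hn'.symm).symm
            · have h17 : z w = 0 := by linarith
              have h18 := hz w hw'.1 h17
              rw [one_zsmul] at hn'
              rw [h18, sub_zero] at hn'
              exact hv'.2.1 hn'.symm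
            · apply hw2.1
              have h19 : v - w = v - u := by
                rw [← hn']
                have : v - u = -(u - v) := by abel
                rw [this, ← hn, ← neg_zsmul]
                norm_num
              exact sub_right_injective h19
          have hn6 : n = 1 ∨ n = -1 := by omega
          rcases hn6 with rfl | rfl
          · left
            rw [one_zsmul] at hn
            rw [hn]; abel
          · right
            rw [neg_one_zsmul] at hn
            have : us = v - u := by
              rw [← neg_neg us, hn]; abel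
            rw [this]; abel
        obtain ⟨a, ha, b, hb, e, he, hab, hae, hbe⟩ := Finset.two_lt_card.1 hcon
        have h7 := hpair a ha b hb hab
        have h8 := hpair a ha e he hae
        have h9 := hpair b hb e he hbe
        have hzz : ∀ x y : Γ, x = y + us → z x = z y + z us := by
          rintro x y rfl
          exact map_add z y us
        have h7' : z a = z b + z us ∨ z b = z a + z us := by
          rcases h7 with h | h
          · exact Or.inl (hzz _ _ h)
          · exact Or.inr (hzz _ _ h)
        have h8' : z a = z e + z us ∨ z e = z a + z us := by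
          rcases h8 with h | h
          · exact Or.inl (hzz _ _ h)
          · exact Or.inr (hzz _ _ h)
        have h9' : z b = z e + z us ∨ z e = z b + z us := by
          rcases h9 with h | h
          · exact Or.inl (hzz _ _ h)
          · exact Or.inr (hzz _ _ h)
        omega
      exact Finset.card_le_mul_card_image_of_maps_to (f := π) (t := X) (by
        intro u hu
        rw [hX]
        exact Finset.mem_image_of_mem _ (Finset.mem_of_mem_erase hu)) 2 h2
    have h2 := Finset.card_erase_add_one hus
    omega
  -- the sum over the levels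
  have hit1 : (it X 1) = X := by
    show {0} + X = X
    rw [Finset.singleton_zero, zero_add]
  have hit2 : (it X 2) = X + X := by
    show it X 1 + X = X + X
    rw [hit1]
  have hlev : ∀ i, 1 + 2 + 2 * X.card + 2 * i * (X + X).card ≤ (it U (i + 2)).card := by
    intro i
    induction i with
    | zero =>
      have h1 := hstep 0
      have h2 := hstep 1
      rw [hit1] at h2
      have h3 : (it U 0).card = 1 := by simp [it]
      have h4 : (it X 0).card = 1 := by simp [it]
      simp only [zero_add] at h1 h2 ⊢
      have h5 : (it U (1 + 1)).card = (it U 2).card := rfl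
      omega
    | succ i ih =>
      have h1 := hstep (i + 2)
      have h2 : (X + X).card ≤ (it X (i + 2)).card := by
        rw [← hit2]
        exact Finset.card_le_card (it_mono X hX0 (by omega))
      have e : 2 * (i + 1) * (X + X).card = 2 * i * (X + X).card + 2 * (X + X).card := by ring
      have e2 : i + 1 + 2 = i + 2 + 1 := by ring
      rw [e, e2]
      omega
  have hJ2 : 5 ≤ J := by
    by_contra hcon
    have h1 : J ≤ 4 := by omega
    have h2 : (J : ℝ) ≤ 4 := by exact_mod_cast h1
    nlinarith
  obtain ⟨i, hi⟩ : ∃ i, J = i + 2 := ⟨J - 2, by omega⟩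
  have h1 := hlev i
  rw [← hi] at h1
  have h2 : (3 : ℝ) + 2 * X.card + 2 * i * (X + X).card ≤ (it U J).card := by
    have : ((1 + 2 + 2 * X.card + 2 * i * (X + X).card : ℕ) : ℝ) ≤ (it U J).card := by
      exact_mod_cast h1
    push_cast at this
    linarith
  have h3 : (U.card : ℝ) ≤ 2 * X.card + 1 := by exact_mod_cast hXU
  obtain ⟨τ, hτ⟩ : ∃ τ : ℝ, τ = U.card - 1 := ⟨_, rfl⟩
  obtain ⟨D, hD⟩ : ∃ D : ℝ, D = ((X + X).card : ℝ) := ⟨_, rfl⟩
  obtain ⟨x, hx⟩ : ∃ x : ℝ, x = (X.card : ℝ) := ⟨_, rfl⟩
  rw [← hD, ← hx] at h2
  rw [← hx] at h3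
  rw [← hτ] at hU ⊢
  have hJi : (J : ℝ) = i + 2 := by rw [hi]; push_cast; ring
  have hτ0 : 0 < τ := by
    rw [hτ]
    have h4 : 1 < U.card := by
      obtain ⟨u, hu, hu0⟩ := hne
      exact Finset.one_lt_card.2 ⟨u, hu, 0, h0, hu0⟩
    have : (1 : ℝ) < U.card := by exact_mod_cast h4
    linarith
  have hi0 : (1 : ℝ) ≤ i := by
    have : 1 ≤ i := by omega
    exact_mod_cast this
  have h4 : 2 * i * D ≤ (1 + 2 * δ) * i * τ := by
    have h5 : (3 : ℝ) + τ + 2 * i * D ≤ (1 + δ) * J * τ := by linarith
    rw [hJi] at h5 hJ
    nlinarith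
  have h5 : 2 * D ≤ (1 + 2 * δ) * τ := by
    have : (2 * D) * i ≤ ((1 + 2 * δ) * τ) * i := by linarith
    exact le_of_mul_le_mul_right this (by linarith)
  have h6 : 2 * (X + X).card < 3 * X.card := by
    have h7 : τ ≤ 2 * x := by linarith
    have h8 : 2 * D < 3 * x := by nlinarith
    rw [hD, hx] at h8
    exact_mod_cast h8
  have hclosed := symm_doubling X hXneg h6
  -- the subgroup
  obtain ⟨Hs, hHs⟩ : ∃ Hs : AddSubgroup (Γ ⧸ AddSubgroup.zmultiples us), ∀ y, y ∈ Hs ↔ y ∈ X + X :=
    ⟨{ carrier := {y | y ∈ X + X}
       zero_mem' := by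
        show (0 : Γ ⧸ AddSubgroup.zmultiples us) ∈ X + X
        simpa using Finset.add_mem_add hX0 hX0
       add_mem' := by
        intro a b ha hb
        exact hclosed a ha b hb
       neg_mem' := by
        intro a ha
        show -a ∈ X + X
        have ha' : a ∈ X + X := ha
        rw [Finset.mem_add] at ha'
        obtain ⟨u, hu, v, hv, rfl⟩ := ha'
        rw [neg_add]
        exact Finset.add_mem_add (hXneg u hu) (hXneg v hv) }, fun y => Iff.rfl⟩
  have hHsfin : Finite Hs := by
    have : Finite ((X + X : Finset _) : Set (Γ ⧸ AddSubgroup.zmultiples us)) := by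
      infer_instance
    exact Finite.of_injective (fun y : Hs => (⟨y.1, (hHs y.1).1 y.2⟩ : ((X + X : Finset _) : Set (Γ ⧸ AddSubgroup.zmultiples us))))
      (fun a b hab => Subtype.ext (by simpa using hab))
  have hcardH : Nat.card Hs = (X + X).card := by
    have h7 : (Hs : Set (Γ ⧸ AddSubgroup.zmultiples us)) = ((X + X : Finset _) : Set _) := by
      ext y
      rw [SetLike.mem_coe, hHs, Finset.mem_coe]
    have h8 : Nat.card Hs = Nat.card (Hs : Set (Γ ⧸ AddSubgroup.zmultiples us)) := rfl
    rw [h8, h7, Nat.card_coe_set_eq, Set.ncard_coe_finset]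
  -- the preimage
  obtain ⟨Lam, hLam⟩ : ∃ Lam : AddSubgroup Γ, Lam = Hs.comap π := ⟨_, rfl⟩
  have hLm : ∀ y, y ∈ Lam ↔ π y ∈ Hs := by intro y; rw [hLam]; exact Iff.rfl
  have hULam : ∀ u ∈ U, u ∈ Lam := by
    intro u hu
    rw [hLm, hHs]
    have : π u ∈ X := by rw [hX]; exact Finset.mem_image_of_mem _ hu
    simpa using Finset.add_mem_add this hX0
  obtain ⟨a, ha⟩ := Int.subgroup_cyclic (Lam.map z)
  have hcl : ∀ y, y ∈ Lam → a ∣ z y := by
    intro y hy
    have h7 : z y ∈ Lam.map z := AddSubgroup.mem_map_of_mem z hy
    rw [ha, AddSubgroup.mem_closure_singleton] at h7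
    obtain ⟨n, hn⟩ := h7
    exact ⟨n, by rw [← hn, smul_eq_mul, mul_comm]⟩
  have ha0 : a ≠ 0 := by
    rintro rfl
    have := hcl us (hULam us hus)
    rw [zero_dvd_iff] at this
    omega
  obtain ⟨lam, hlamL, hlamz⟩ : ∃ lam ∈ Lam, z lam = |a| := by
    have h7 : a ∈ Lam.map z := by rw [ha]; exact AddSubgroup.mem_closure_singleton_self a
    obtain ⟨y, hy, hya⟩ := AddSubgroup.mem_map.1 h7
    rcases abs_choice a with h | h
    · exact ⟨y, hy, by rw [h, hya]⟩
    · exact ⟨-y, Lam.neg_mem hy, by rw [h, map_neg, hya]⟩
  obtain ⟨z0, hz0⟩ : ∃ z0, z0 = |a| := ⟨_, rfl⟩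
  have hz0p : 0 < z0 := by rw [hz0]; exact abs_pos.2 ha0
  have hcl' : ∀ y, y ∈ Lam → z0 ∣ z y := by
    intro y hy
    rw [hz0]
    exact (abs_dvd _ _).2 (hcl y hy)
  rw [← hz0] at hlamz
  obtain ⟨k, hk⟩ : ∃ k : ℕ, z us = z0 * k := by
    obtain ⟨c, hc⟩ := hcl' us (hULam us hus)
    have hc0 : 0 ≤ c := by
      by_contra hcon
      push Not at hcon
      nlinarith
    exact ⟨c.toNat, by rw [Int.toNat_of_nonneg hc0]; exact hc⟩
  have hk0 : 0 < k := by
    rcases Nat.eq_zero_or_pos k with h | h
    · rw [h] at hk
      simp at hk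
      omega
    · exact h
  obtain ⟨K, hK⟩ : ∃ K : AddSubgroup Γ, K = Lam ⊓ z.ker := ⟨_, rfl⟩
  have hKm : ∀ y, y ∈ K ↔ y ∈ Lam ∧ z y = 0 := by
    intro y; rw [hK, AddSubgroup.mem_inf, AddMonoidHom.mem_ker]
  obtain ⟨F, hF⟩ : ∃ F : K × Fin k → Hs, ∀ w, ((F w : Hs) : Γ ⧸ AddSubgroup.zmultiples us) =
      π ((w.1 : Γ) + (w.2 : ℕ) • lam) := by
    refine ⟨fun w => ⟨π ((w.1 : Γ) + (w.2 : ℕ) • lam), ?_⟩, fun w => rfl⟩
    rw [← hLm]
    exact Lam.add_mem ((hKm _).1 w.1.2).1 (Lam.nsmul_mem hlamL _)
  have hFinj : Function.Injective F := by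
    rintro ⟨v, i⟩ ⟨v', i'⟩ h
    have h7 := congrArg (Subtype.val) h
    rw [hF, hF] at h7
    simp only at h7
    have h8 : π (((v : Γ) + (i : ℕ) • lam) - ((v' : Γ) + (i' : ℕ) • lam)) = 0 := by
      rw [map_sub, h7, sub_self]
    obtain ⟨n, hn⟩ := (hπk _).1 h8
    have h9 := congrArg z hn
    rw [map_zsmul, map_sub, map_add, map_add, map_nsmul, map_nsmul, ((hKm _).1 v.2).2,
      ((hKm _).1 v'.2).2, hlamz, hk] at h9
    simp only [smul_eq_mul, zero_add, nsmul_eq_mul] at h9
    have h10 : z0 * (n * k - ((i : ℕ) - (i' : ℕ))) = 0 := by linarith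
    have h11 : n * k - (((i : ℕ) : ℤ) - (i' : ℕ)) = 0 := by
      rcases mul_eq_zero.1 h10 with h | h
      · omega
      · exact h
    have hi1 := i.2
    have hi2 := i'.2
    have hn0 : n = 0 := by
      by_contra hcon
      rcases lt_or_gt_of_ne hcon with h | h
      · have : n * k ≤ -1 * (k : ℤ) := mul_le_mul_of_nonneg_right (by omega) (by omega)
        omega
      · have : 1 * (k : ℤ) ≤ n * k := mul_le_mul_of_nonneg_right (by omega) (by omega)
        omega
    rw [hn0, zero_mul] at h11
    have h12 : (i : ℕ) = (i' : ℕ) := by omega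
    rw [hn0, zero_zsmul, h12] at hn
    have h13 : (v : Γ) = v' := by
      have : (0 : Γ) = (v : Γ) - v' := by rw [hn]; abel
      exact (sub_eq_zero.1 this.symm)
    rw [Prod.mk.injEq]
    exact ⟨Subtype.ext h13, Fin.ext h12⟩
  have hKfin : Finite K := by
    have : Finite (K × Fin k) := Finite.of_injective F hFinj
    exact Finite.of_injective (fun v : K => ((v, ⟨0, hk0⟩) : K × Fin k)) (by
      intro v w h
      exact (Prod.mk.inj h).1)
  have hcardK : k * Nat.card K ≤ (X + X).card := by
    have h7 := Nat.card_le_card_of_injective F hFinj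
    rw [Nat.card_prod, Nat.card_fin, hcardH] at h7
    rw [mul_comm]
    exact h7
  refine ⟨lam, k, K, hk0, hKfin, fun v hv => ((hKm v).1 hv).2, ?_, ?_⟩
  · have h7 : ((k * Nat.card K : ℕ) : ℝ) ≤ D := by rw [hD]; exact_mod_cast hcardK
    linarith
  · intro u hu
    obtain ⟨j, hj⟩ := hcl' u (hULam u hu)
    refine ⟨j, ?_, ?_, ?_⟩
    · have b1 := hmax u hu
      have b2 := hmin u hu
      rw [hj, hk] at b1 b2
      rw [abs_le]
      constructor
      · have : z0 * (-(k : ℤ)) ≤ z0 * j := by linarith
        exact le_of_mul_le_mul_left this hz0p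
      · exact le_of_mul_le_mul_left b1 hz0p
    · rw [hKm]
      refine ⟨Lam.sub_mem (hULam u hu) (Lam.zsmul_mem hlamL _), ?_⟩
      rw [map_sub, map_zsmul, hlamz, hj, smul_eq_mul]
      ring
    · rintro rfl
      apply hz u hu
      rw [hj, mul_zero]

end Pool.Agent.Helper774.PQ
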