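import Mathlib
import Pool.Agent.Helper398.Dil
import Pool.Agent.Helper774.PQ.Res

set_option autoImplicit false
set_option linter.unusedSectionVars false

open Finset
open scoped Pointwise

namespace Pool.Agent.Helper774.PQ

open Pool.Agent.Helper398

theorem lift_gen (m : ℕ) [NeZero m] (T : Finset (ZMod m)) (hneg : ∀ t ∈ T, -t ∈ T)
    (h0 : (0 : ZMod m) ∈ T) (hne : ∃ t ∈ T, t ≠ 0) (hunit : ∀ t ∈ T, t ≠ 0 → IsUnit t)
    (c : ZMod m) (hc : c ≠ 0) (δ D : ℝ)
    (hδ : 0 < δ) (hδ2 : δ < 1 / 4) (J : ℕ) (hJ : 1 + 4 * δ ≤ δ * J)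
    (hD : ∀ t ∈ T, 16 * (((c * t).valMinAbs : ℤ) : ℝ) ^ 2 ≤ D * (m : ℝ) ^ 2)
    (hDJ : D * (J : ℝ) ^ 2 ≤ 1)
    (hT : ((it T J).card : ℝ) ≤ (1 + δ) * J * (T.card - 1)) :
    ∃ (g : ZMod m) (k : ℕ) (K : AddSubgroup (ZMod m)), 0 < k ∧
      2 * ((k * Nat.card K : ℕ) : ℝ) ≤ (1 + 2 * δ) * (T.card - 1) ∧
      ∀ t ∈ T, ∃ j : ℤ, |j| ≤ k ∧ t - j • g ∈ K ∧ (j = 0 → t = 0) := by
  have hm0 : 0 < m := Nat.pos_of_ne_zero (NeZero.ne m)
  have hp0 : (0 : ℝ) < m := by exact_mod_cast hm0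
  have hJ1 : (1 : ℝ) ≤ J := by
    have : 1 ≤ J := by
      by_contra hcon
      have h1 : J = 0 := by omega
      rw [h1] at hJ
      norm_num at hJ
      linarith
    exact_mod_cast this
  -- the smallness
  have hsmall : ∀ t ∈ T, 4 * (J : ℝ) * |(((c * t).valMinAbs : ℤ) : ℝ)| ≤ m := by
    intro t ht
    have h1 := hD t ht
    have h2 : (4 * (J : ℝ) * |(((c * t).valMinAbs : ℤ) : ℝ)|) ^ 2 ≤ (m : ℝ) ^ 2 := by
      rw [mul_pow, mul_pow, sq_abs]
      have h3 : (J : ℝ) ^ 2 * (16 * (((c * t).valMinAbs : ℤ) : ℝ) ^ 2) ≤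
          (J : ℝ) ^ 2 * (D * (m : ℝ) ^ 2) := mul_le_mul_of_nonneg_left h1 (by positivity)
      have h4 : (D * (J : ℝ) ^ 2) * (m : ℝ) ^ 2 ≤ 1 * (m : ℝ) ^ 2 :=
        mul_le_mul_of_nonneg_right hDJ (by positivity)
      nlinarith
    exact le_of_sq_le_sq h2 hp0.le
  obtain ⟨f, hf⟩ : ∃ f : ZMod m → ℤ, f = fun t => (c * t).valMinAbs := ⟨_, rfl⟩
  have hfcast : ∀ t, ((f t : ℤ) : ZMod m) = c * t := by
    intro t; rw [hf]; exact ZMod.coe_valMinAbs _
  have hfb : ∀ t ∈ T, 4 * (J : ℤ) * |f t| ≤ m := by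
    intro t ht
    have h1 := hsmall t ht
    rw [hf]
    exact_mod_cast h1
  have hJ1z : (1 : ℤ) ≤ J := by exact_mod_cast hJ1
  have hfb2 : ∀ t ∈ T, 4 * |f t| ≤ m := by
    intro t ht
    have h1 := hfb t ht
    have h2 : |f t| * 1 ≤ |f t| * J := mul_le_mul_of_nonneg_left hJ1z (abs_nonneg _)
    nlinarith
  have hpz : (0 : ℤ) < m := by exact_mod_cast hm0
  have hfneg : ∀ t ∈ T, f (-t) = -f t := by
    intro t ht
    have h1 := hfb2 t ht
    have h2 : ((-f t : ℤ) : ZMod m) = c * (-t) := by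
      push_cast
      rw [hfcast]; ring
    have h3 := valMinAbs_of_small m (-f t) (by rw [abs_neg]; omega)
    rw [h2] at h3
    rw [hf] at h3 ⊢
    exact h3
  obtain ⟨e, he⟩ : ∃ e : ZMod m → ℤ × ZMod m, e = fun t => (f t, t) := ⟨_, rfl⟩
  obtain ⟨U, hU⟩ : ∃ U : Finset (ℤ × ZMod m), U = T.image e := ⟨_, rfl⟩
  have heinj : Function.Injective e := by
    intro a b hab
    rw [he] at hab
    exact (Prod.mk.inj hab).2
  have hUm : ∀ u, u ∈ U ↔ u.2 ∈ T ∧ u.1 = f u.2 := by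
    intro u
    rw [hU, Finset.mem_image]
    constructor
    · rintro ⟨t, ht, rfl⟩
      rw [he]
      exact ⟨ht, rfl⟩
    · rintro ⟨h1, h2⟩
      refine ⟨u.2, h1, ?_⟩
      rw [he]
      exact Prod.ext h2.symm rfl
  have hUneg : ∀ u ∈ U, -u ∈ U := by
    intro u hu
    rw [hUm] at hu ⊢
    refine ⟨hneg _ hu.1, ?_⟩
    show -u.1 = f (-u.2)
    rw [hfneg _ hu.1, hu.2]
  have hU0 : (0 : ℤ × ZMod m) ∈ U := by
    rw [hUm]
    refine ⟨h0, ?_⟩
    show (0 : ℤ) = f 0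
    rw [hf]; simp
  have hUcard : U.card = T.card := by
    rw [hU, Finset.card_image_of_injective _ heinj]
  have hUne : ∃ u ∈ U, u ≠ 0 := by
    obtain ⟨t, ht, ht0⟩ := hne
    refine ⟨e t, by rw [hU]; exact Finset.mem_image_of_mem _ ht, ?_⟩
    intro h1
    apply ht0
    have := congrArg Prod.snd h1
    rw [he] at this
    exact this
  obtain ⟨z, hzdef⟩ : ∃ z : (ℤ × ZMod m) →+ ℤ, z = AddMonoidHom.fst _ _ := ⟨_, rfl⟩
  have hze : ∀ u, z u = u.1 := by intro u; rw [hzdef]; rfl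
  have hz : ∀ u ∈ U, z u = 0 → u = 0 := by
    intro u hu h
    rw [hze] at h
    rw [hUm] at hu
    have h1 : u.2 = 0 := by
      by_contra hcon
      have h2 := hunit _ hu.1 hcon
      have h3 := hfcast u.2
      rw [← hu.2, h, Int.cast_zero] at h3
      exact hc ((h2.mul_left_eq_zero).1 h3.symm)
    exact Prod.ext h h1
  -- comparison of iterated sumsets
  obtain ⟨φ, hφ⟩ : ∃ φ : (ℤ × ZMod m) →+ ZMod m, φ = AddMonoidHom.snd _ _ := ⟨_, rfl⟩
  have hφe : ∀ u, φ u = u.2 := by intro u; rw [hφ]; rfl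
  have hφU : U.image φ = T := by
    ext x
    rw [Finset.mem_image]
    constructor
    · rintro ⟨u, hu, rfl⟩
      rw [hφe]
      exact ((hUm u).1 hu).1
    · intro hx
      refine ⟨e x, by rw [hU]; exact Finset.mem_image_of_mem _ hx, ?_⟩
      rw [hφe, he]
  have hitc : ∀ j, ∀ x ∈ it U j, ((x.1 : ℤ) : ZMod m) = c * x.2 := by
    intro j
    induction j with
    | zero =>
      intro x hx
      simp only [it, Finset.mem_singleton] at hx
      subst hx; simp
    | succ j ih =>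
      intro x hx
      simp only [it, Finset.mem_add] at hx
      obtain ⟨a, ha, t, ht, rfl⟩ := hx
      have h1 := ih a ha
      have h2 := (hUm t).1 ht
      rw [Prod.fst_add, Prod.snd_add, Int.cast_add, h1, h2.2, hfcast]
      ring
  obtain ⟨um, hum, hmax⟩ := Finset.exists_max_image U (fun u => |u.1|) ⟨0, hU0⟩
  have hitb0 : ∀ j : ℕ, ∀ x ∈ it U j, |x.1| ≤ j * |um.1| := by
    intro j
    induction j with
    | zero =>
      intro x hx
      simp only [it, Finset.mem_singleton] at hx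
      subst hx; simp
    | succ j ih =>
      intro x hx
      simp only [it, Finset.mem_add] at hx
      obtain ⟨a, ha, t, ht, rfl⟩ := hx
      have h1 := ih a ha
      have h2 := hmax t ht
      have h3 := abs_add_le a.1 t.1
      rw [Prod.fst_add]
      push_cast
      linarith
  have hitb : ∀ x ∈ it U J, 4 * |x.1| ≤ m := by
    intro x hx
    have h1 := hitb0 J x hx
    have h2 := (hUm um).1 hum
    have h3 := hfb _ h2.1
    rw [← h2.2] at h3
    nlinarith
  have hcardit : (it U J).card ≤ (it T J).card := by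
    have h1 : (it U J).image φ = it T J := by rw [image_it, hφU]
    rw [← h1, Finset.card_image_of_injOn]
    intro x hx y hy hxy
    rw [Finset.mem_coe] at hx hy
    rw [hφe, hφe] at hxy
    have h2 := hitb x hx
    have h3 := hitb y hy
    have h4 : ((x.1 : ℤ) : ZMod m) = ((y.1 : ℤ) : ZMod m) := by
      rw [hitc J x hx, hitc J y hy, hxy]
    have h5 := valMinAbs_of_small m x.1 (by omega)
    have h6 := valMinAbs_of_small m y.1 (by omega)
    rw [h4, h6] at h5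
    exact Prod.ext h5.symm hxy
  have hUit : ((it U J).card : ℝ) ≤ (1 + δ) * J * (U.card - 1) := by
    rw [hUcard]
    have : ((it U J).card : ℝ) ≤ (it T J).card := by exact_mod_cast hcardit
    linarith
  obtain ⟨lam, k, K, hk, hKf, hKz, hKc, hKu⟩ := grp_structure z U hUneg hU0 hz hUne δ hδ hδ2 J hJ hUit
  refine ⟨lam.2, k, K.map φ, hk, ?_, ?_⟩
  · rw [hUcard] at hKc
    refine le_trans ?_ hKc
    have h1 : Nat.card (K.map φ) ≤ Nat.card K := by
      apply Nat.card_le_card_of_surjective (fun v : K => (⟨φ v, AddSubgroup.mem_map_of_mem φ v.2⟩ : K.map φ))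
      rintro ⟨y, hy⟩
      obtain ⟨v, hv, rfl⟩ := AddSubgroup.mem_map.1 hy
      exact ⟨⟨v, hv⟩, rfl⟩
    have h2 : k * Nat.card (K.map φ) ≤ k * Nat.card K := Nat.mul_le_mul_left _ h1
    have h3 : ((k * Nat.card (K.map φ) : ℕ) : ℝ) ≤ ((k * Nat.card K : ℕ) : ℝ) := by exact_mod_cast h2
    linarith
  · intro t ht
    have htU : e t ∈ U := by rw [hU]; exact Finset.mem_image_of_mem _ ht
    obtain ⟨j, hj1, hj2, hj3⟩ := hKu _ htU
    refine ⟨j, hj1, ?_, ?_⟩
    · have h1 := AddSubgroup.mem_map_of_mem φ hj2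
      rw [map_sub, map_zsmul, hφe, hφe, he] at h1
      exact h1
    · intro h
      have h1 := congrArg Prod.snd (hj3 h)
      rw [he] at h1
      exact h1

end Pool.Agent.Helper774.PQ
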