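import Mathlib
import Pool.Agent.Helper398.Dil
import Pool.Agent.Helper398.Stage
import Pool.Agent.Helper398.Stab
import Pool.Agent.Helper398.SArith
import Pool.Agent.Helper774.PQ.Ar
import Pool.Agent.Helper774.PQ.Lift
import Pool.Agent.Helper774.PQ.Kn

set_option autoImplicit false
set_option linter.unusedSectionVars false

open Finset
open scoped Pointwise

namespace Pool.Agent.Helper774.PQ

open Pool.Agent.Helper398

/-- The core of the structure theorem: nearly all of a nearly extremal set of units is covered by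
few cosets. -/
theorem struct_core (δ : ℝ) (hδ0 : 0 < δ) (hδ8 : δ ≤ 1 / 8) : ∃ ξ : ℝ, 0 < ξ ∧ ξ ≤ 1 / 100 ∧
    ∃ M : ℕ, ∀ p q : ℕ, p.Prime → q.Prime → p ≤ q → (q : ℝ) ≤ (1 + ξ) * p →
    ∀ [NeZero (p * q)] (A : Finset (ZMod (p * q))), NS A → (∀ a ∈ A, IsUnit a) → M ≤ A.card →
    ((p * q : ℕ) : ℝ) ≤ (1 + ξ) * ((A.card : ℝ) ^ 2 / 4) →
    ∃ (R : Finset (ZMod (p * q))) (rho τ : ℝ) (g : ZMod (p * q)) (k : ℕ)
      (K : AddSubgroup (ZMod (p * q))), R ⊆ A ∧ rho ≤ R.card ∧ rho ≤ A.card ∧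
      (1 - δ / 8) * A.card ≤ rho ∧ τ ≤ (1 + δ / 8) * rho ∧ 0 < k ∧
      2 * ((k * Nat.card K : ℕ) : ℝ) ≤ (1 + 2 * δ) * τ ∧
      (A.card : ℝ) ^ 2 / 5 ≤ ((p * q : ℕ) : ℝ) ∧
      ∀ t ∈ R, ∃ j : ℤ, |j| ≤ k ∧ t - j • g ∈ K ∧ j ≠ 0 := by
  obtain ⟨θ, hθ⟩ : ∃ θ : ℝ, θ = δ / 8 := ⟨_, rfl⟩
  obtain ⟨d, hd⟩ : ∃ d : ℝ, d = θ / 16 := ⟨_, rfl⟩
  have hθ0 : 0 < θ := by rw [hθ]; positivity
  have hθ64 : θ ≤ 1 / 64 := by rw [hθ]; linarith
  have hd0 : 0 < d := by rw [hd]; positivity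
  have hd8 : d ≤ 1 / 1024 := by rw [hd]; linarith
  obtain ⟨M1, hM1⟩ := near_eq d hd0 (by linarith)
  obtain ⟨c2, hc2⟩ : ∃ c2 : ℝ, c2 = (d ^ 2 / 32) ^ 2 / 288 := ⟨_, rfl⟩
  have hc20 : 0 < c2 := by rw [hc2]; positivity
  obtain ⟨s, hs⟩ : ∃ s : ℝ, s = θ ^ 2 * c2 := ⟨_, rfl⟩
  have hs0 : 0 < s := by rw [hs]; positivity
  obtain ⟨bt, hbt⟩ : ∃ bt : ℝ, bt = bet' (1 / 40) := ⟨_, rfl⟩
  have hbt0 : 0 ≤ bt := by rw [hbt]; unfold bet' thr'; positivity
  obtain ⟨J, hJ⟩ : ∃ J : ℕ, J = ⌈(2 + 4 * δ) / δ⌉₊ := ⟨_, rfl⟩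
  have hJ1 : 2 + 4 * δ ≤ δ * J := by
    have h1 : (2 + 4 * δ) / δ ≤ J := by rw [hJ]; exact Nat.le_ceil _
    rw [div_le_iff₀ hδ0] at h1
    linarith
  have hJ2 : (8 : ℝ) ≤ J := by nlinarith
  refine ⟨d ^ 2 / 16, by positivity, by nlinarith,
    max M1 ⌈40 * bt + J / s + 4 / s + 480 * (J : ℝ) ^ 2 / s ^ 2 + 40⌉₊, ?_⟩
  intro p q hp hq hpq hqp _ A hNS hunit hM hpA
  have hA0 := hNS.zero_notMem
  obtain ⟨m, hm⟩ : ∃ m : ℕ, m = p * q := ⟨_, rfl⟩
  obtain ⟨n, hn⟩ : ∃ n : ℕ, n = A.card := ⟨_, rfl⟩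
  rw [← hn] at hM hpA ⊢
  have hm0' : 0 < p * q := Nat.mul_pos hp.pos hq.pos
  have hp0 : (0 : ℝ) < ((p * q : ℕ) : ℝ) := by exact_mod_cast hm0'
  have hnM : 40 * bt + J / s + 4 / s + 480 * (J : ℝ) ^ 2 / s ^ 2 + 40 ≤ (n : ℝ) :=
    le_trans (Nat.le_ceil _) (by exact_mod_cast le_trans (le_max_right _ _) hM)
  have q1 : 0 ≤ J / s := by positivity
  have q2 : 0 ≤ 4 / s := by positivity
  have q3 : 0 ≤ 480 * (J : ℝ) ^ 2 / s ^ 2 := by positivity
  have hn40 : (40 : ℝ) ≤ n := by linarith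
  have hn8 : (8 : ℝ) ≤ n := by linarith
  have hn0 : (0 : ℝ) < n := by linarith
  have hnbt : 40 * bt ≤ n := by linarith
  have hnJ : (J : ℝ) ≤ s * n := by
    have : J / s ≤ n := by linarith
    rw [div_le_iff₀ hs0] at this
    linarith
  have hn4 : 4 ≤ s * n := by
    have : 4 / s ≤ n := by linarith
    rw [div_le_iff₀ hs0] at this
    linarith
  have hnJ2 : 480 * (J : ℝ) ^ 2 / s ^ 2 ≤ n := by linarith
  have hcardp : ∀ B : Finset (ZMod (p * q)), (B.card : ℝ) ≤ ((p * q : ℕ) : ℝ) := by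
    intro B
    have := Finset.card_le_univ B
    rw [ZMod.card] at this
    exact_mod_cast this
  -- lower bound for m
  have hplow : (n : ℝ) ^ 2 / 5 ≤ ((p * q : ℕ) : ℝ) := by
    have h1 := lower_gen (1 / 40) (by norm_num) (by norm_num) A hNS
    rw [← hn, ← hbt] at h1
    exact sa_plow n bt _ _ hn0 hnbt h1 (hcardp A.subsetSum)
  have hpr : (0 : ℝ) < p := by exact_mod_cast hp.pos
  have hqr : (0 : ℝ) < q := by exact_mod_cast hq.pos
  have hqn : (q : ℝ) ≤ 51 / 100 * n := by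
    apply ar_q p q n (d ^ 2 / 16) hpr hn0 (by positivity) (by nlinarith) hqr hqp
    rw [← Nat.cast_mul]
    exact hpA
  -- the stage
  obtain ⟨X, hXA, rho, hX1, hX2, hX3, hX4, hX5⟩ := hM1 (ZMod (p * q)) (1 / 2) le_rfl (by norm_num)
    A hNS (wide_half A hA0) (by rw [← hn]; exact le_trans (le_max_left _ _) hM) (by
      rw [← hn]
      have := hcardp A.subsetSum
      linarith)
  rw [← hn] at hX1 hX3 hX5
  obtain ⟨R, hR⟩ : ∃ R, R = A \ X := ⟨_, rfl⟩
  rw [← hR] at hX2 hX4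
  have hRA : R ⊆ A := by rw [hR]; exact Finset.sdiff_subset
  have hR0 : (0 : ZMod (p * q)) ∉ R := fun h => hA0 (hRA h)
  obtain ⟨B, hB⟩ : ∃ B, B = X.subsetSum := ⟨_, rfl⟩
  rw [← hB] at hX4 hX5
  obtain ⟨b, hb⟩ : ∃ b : ℝ, b = (B.card : ℝ) := ⟨_, rfl⟩
  rw [← hb] at hX5
  have hrho0 : (0 : ℝ) < rho := by
    have h1 : 0 < (1 - 2 * d) * (n : ℝ) := mul_pos (by linarith) hn0
    linarith
  have hrhoq : (q : ℝ) ≤ rho := by
    have h1 : 99 / 100 * (n : ℝ) ≤ (1 - 2 * d) * (n : ℝ) :=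
      mul_le_mul_of_nonneg_right (by linarith) hn0.le
    linarith
  have hRcard : (R.card : ℝ) ≤ n := by
    rw [hn]; exact_mod_cast Finset.card_le_card hRA
  have hrhoR : (rho : ℝ) ≤ R.card := by exact_mod_cast hX2
  have hrhon : (rho : ℝ) ≤ n := by linarith
  obtain ⟨lam, hlam⟩ : ∃ lam : ℝ, lam = (1 + d) * (1 / 2) * rho := ⟨_, rfl⟩
  rw [← hlam] at hX4
  have hlam0 : 0 < lam := by rw [hlam]; positivity
  have hlamn : lam ≤ n := by
    rw [hlam]
    have h1 : (1 + d) * (1 / 2) * (rho : ℝ) ≤ 1 * rho :=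
      mul_le_mul_of_nonneg_right (by linarith) hrho0.le
    linarith
  -- b is quadratic
  have hbX : c2 * (n : ℝ) ^ 2 ≤ b := by
    have h1 := crude_bound' X.card X rfl (hNS.mono hXA)
    have h2 : (X.card : ℝ) ^ 2 ≤ 288 * b := by rw [hb, hB]; exact_mod_cast h1
    exact sa_b d c2 n X.card b hn0 hd0 hc2 hX1 h2
  have hb0 : 0 < b := lt_of_lt_of_le (by positivity) hbX
  have hbp : b < θ * ((p * q : ℕ) : ℝ) := sa_bp n d θ b _ hθ0 hn0 hd hX5 hplow
  -- the symmetric set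
  obtain ⟨T, hT⟩ : ∃ T, T = sym R := ⟨_, rfl⟩
  have hT0 : (0 : ZMod (p * q)) ∈ T := by rw [hT]; exact zero_mem_sym R
  have hTneg : ∀ t ∈ T, -t ∈ T := by rw [hT]; exact neg_mem_sym R
  have hTunit : ∀ t ∈ T, t ≠ 0 → IsUnit t := by
    intro t ht ht0
    rw [hT, sym, Finset.mem_insert, Finset.mem_union, Finset.mem_neg] at ht
    rcases ht with h | h | h
    · exact absurd h ht0
    · exact hunit t (hRA h)
    · obtain ⟨y, hy, rfl⟩ := h
      exact (hunit y (hRA hy)).neg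
  have hTgr : ∀ t ∈ T, (gr B t : ℝ) ≤ lam := by
    rw [hT]; exact gr_sym B R lam hlam0.le hX4
  have hTcard1 : R.card + 1 ≤ T.card := by rw [hT]; exact card_sym_ge R hR0
  have hTcard2 : T.card ≤ 2 * R.card + 1 := by rw [hT]; exact card_sym_le R
  obtain ⟨τ, hτ⟩ : ∃ τ : ℕ, τ = T.card - 1 := ⟨_, rfl⟩
  have hτT : T.card = τ + 1 := by omega
  have hτrho : (rho : ℝ) ≤ τ := by
    have : R.card ≤ τ := by omega
    have h2 : (R.card : ℝ) ≤ τ := by exact_mod_cast this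
    linarith
  have hfac : (1 + 4 * θ ^ 2) * (1 + d) ≤ 1 + δ / 8 := sa_fac δ θ d hδ0 hδ8 hθ hd
  have hlin0 : ∀ (K ν : ℕ), 1 ≤ K → K * lam ≤ θ ^ 2 * b →
      (∀ A' : Finset (ZMod (p * q)), A'.Nonempty → A' + it T K ≠ univ →
        A'.card + ν ≤ (A' + it T K).card) →
      (ν : ℝ) ≤ (1 + δ / 8) * K * rho := by
    intro K ν hK1 hK hκ
    have hKr : (1 : ℝ) ≤ K := by exact_mod_cast hK1
    have hz : (0 : ZMod (p * q)) ∈ it T K := it_mono T hT0 (Nat.zero_le K) (by simp [it])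
    have h1 := lin_growth B (it T K) ν hκ hz (K * lam) θ
      (by positivity) (gr_it B T lam hTgr K) hθ0 (by linarith) (by rw [← hb]; exact hK)
      (by rw [← hb, ZMod.card]; exact hbp)
    refine h1.trans ?_
    have h2 : 2 * (1 + 4 * θ ^ 2) * (K * lam) = (1 + 4 * θ ^ 2) * (1 + d) * (K * rho) := by
      rw [hlam]; ring
    rw [h2]
    have h3 := mul_le_mul_of_nonneg_right hfac (by positivity : (0 : ℝ) ≤ K * rho)
    linarith
  have hlin : ∀ K : ℕ, 1 ≤ K → K * lam ≤ θ ^ 2 * b →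
      ((it T K).card : ℝ) ≤ (1 + δ / 8) * K * rho + q := by
    intro K hK1 hK
    have hz : (0 : ZMod (p * q)) ∈ it T K := it_mono T hT0 (Nat.zero_le K) (by simp [it])
    have h1 := hlin0 K ((it T K).card - q) hK1 hK (by
      intro A' hA' hne
      have h2 := kneser_weak p q hp hq hpq A' (it T K) hA' ⟨0, hz⟩ hne
      have h3 : A'.card ≤ (A' + it T K).card := by
        apply Finset.card_le_card
        intro x hx
        have := Finset.add_mem_add hx hz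
        rwa [add_zero] at this
      omega)
    have h2 : ((it T K).card : ℝ) ≤ (((it T K).card - q : ℕ) : ℝ) + q := by
      have : (it T K).card ≤ ((it T K).card - q) + q := by omega
      exact_mod_cast this
    linarith
  have hθb : s * (n : ℝ) ^ 2 ≤ θ ^ 2 * b := by
    rw [hs]
    have := mul_le_mul_of_nonneg_left hbX (sq_nonneg θ)
    linarith
  have hit1 : it T 1 = T := by
    show {0} + T = T
    rw [Finset.singleton_zero, zero_add]
  -- upper bound for τ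
  have hτup : (τ : ℝ) ≤ (1 + δ / 8) * rho := by
    have h1 := hlin0 1 τ le_rfl (by
      rw [Nat.cast_one, one_mul]
      have h3 : (1 : ℝ) * n ≤ (s * n) * n := mul_le_mul_of_nonneg_right (by linarith) hn0.le
      have h4 : s * (n : ℝ) ^ 2 = (s * n) * n := by ring
      linarith) (by
      intro A' hA' hne
      rw [hit1] at hne ⊢
      rw [hτ]
      exact chowla (p * q) A' T hA' hT0 hTunit hne)
    rw [Nat.cast_one, mul_one] at h1
    exact h1
  -- the J-fold sumset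
  have hTJ : ((it T J).card : ℝ) ≤ (1 + δ) * J * (T.card - 1) := by
    have h1 := hlin J (by
      have : (1 : ℝ) ≤ J := by linarith
      exact_mod_cast this) (by
      have h3 : (J : ℝ) * lam ≤ (s * n) * n := by
        apply mul_le_mul hnJ hlamn hlam0.le (by positivity)
      have h4 : s * (n : ℝ) ^ 2 = (s * n) * n := by ring
      linarith)
    have h3 : (T.card : ℝ) - 1 = τ := by rw [hτT]; push_cast; ring
    rw [h3]
    exact ar_TJ δ J rho τ _ _ q hδ0 hJ1 le_rfl h1 hrhoq hτrho hrho0.le (by linarith)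
  -- the scale for the Fourier argument
  obtain ⟨K, hK⟩ : ∃ K : ℕ, K = ⌊θ ^ 2 * b / lam⌋₊ := ⟨_, rfl⟩
  have hK1 : (K : ℝ) * lam ≤ θ ^ 2 * b := by
    have : (K : ℝ) ≤ θ ^ 2 * b / lam := by rw [hK]; exact Nat.floor_le (by positivity)
    rwa [le_div_iff₀ hlam0] at this
  have hK2 : s * n - 1 < K := by
    have h1 : θ ^ 2 * b / lam < K + 1 := by rw [hK]; exact Nat.lt_floor_add_one _
    have h2 : s * n ≤ θ ^ 2 * b / lam := by
      rw [le_div_iff₀ hlam0]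
      have : s * n * lam ≤ s * n * n := mul_le_mul_of_nonneg_left hlamn (by positivity)
      have h4 : s * (n : ℝ) ^ 2 = (s * n) * n := by ring
      linarith
    linarith
  have hK3 : (3 : ℝ) < K := by linarith
  have hK3' : 4 ≤ K := by
    have : 3 < K := by exact_mod_cast hK3
    omega
  have hK4 : (4 : ℝ) ≤ K := by exact_mod_cast hK3'
  have hKup := hlin K (by omega) hK1
  have hKrho : (K : ℝ) * rho ≤ 2 * (θ ^ 2 * b) :=
    sa_Krho d K rho lam _ hd0.le (Nat.cast_nonneg _) hrho0.le hlam hK1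
  have hhalf : 2 * (it T K).card ≤ Fintype.card (ZMod (p * q)) := by
    rw [ZMod.card]
    have h1 : 2 * ((it T K).card : ℝ) ≤ ((p * q : ℕ) : ℝ) := by
      apply ar_half δ θ b _ (K * rho) _ q hδ0 hδ8 hθ0 hθ64 hp0.le _ hbp (by positivity) hKrho
      · rw [← mul_assoc]; exact hKup
      · have h2 : 8 * (q : ℝ) ≤ n ^ 2 / 5 := by nlinarith
        linarith
    exact_mod_cast h1
  have hnotuniv : it T (K / 2) ≠ univ := by
    intro hu
    have h1 := Finset.card_le_card (it_mono T hT0 (show K / 2 ≤ K by omega))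
    rw [hu, Finset.card_univ] at h1
    have h2 : 0 < Fintype.card (ZMod (p * q)) := Fintype.card_pos
    omega
  have hlow : 1 + (K / 2 : ℕ) * τ ≤ (it T (K / 2)).card := by
    rcases it_card T τ (fun A' hA' hne => by
      rw [hτ]; exact chowla (p * q) A' T hA' hT0 hTunit hne) hT0 (K / 2) with h | h
    · exact absurd h hnotuniv
    · exact h
  have hratio : ((it T K).card : ℝ) ≤ 5 * (it T (K / 2)).card := by
    have h1 : (1 : ℝ) + ((K / 2 : ℕ) : ℝ) * τ ≤ (it T (K / 2)).card := by exact_mod_cast hlow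
    have h2 : (3 : ℝ) * K ≤ 8 * ((K / 2 : ℕ) : ℝ) := by
      have : 3 * K ≤ 8 * (K / 2) := by omega
      exact_mod_cast this
    exact ar_ratio δ K ((K / 2 : ℕ) : ℝ) rho τ _ _ q hδ8 hK4
      (Nat.cast_nonneg _) hrho0.le hrhoq hτrho h2 hKup h1
  obtain ⟨ψ, hψ0, hψ⟩ := exists_char T hT0 hTneg K (by omega) hhalf 5 hratio
  obtain ⟨c, hc0, hc⟩ := char_zmod (p * q) ψ hψ0
  obtain ⟨D, hD⟩ : ∃ D : ℝ, D = 40 * T.card / (K : ℝ) ^ 2 := ⟨_, rfl⟩
  have hDt : ∀ t ∈ T, 16 * (((c * t).valMinAbs : ℤ) : ℝ) ^ 2 ≤ D * ((p * q : ℕ) : ℝ) ^ 2 := by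
    intro t ht
    apply char_small (p * q) hm0'
    · have h1 := ZMod.valMinAbs_mem_Ioc (c * t)
      rw [abs_le]
      constructor
      · have := h1.1; omega
      · have := h1.2; omega
    · rw [← hc t]
      have h2 : ‖1 - ψ t‖ ^ 2 ≤ ∑ t ∈ T, ‖1 - ψ t‖ ^ 2 :=
        Finset.single_le_sum (f := fun t => ‖1 - ψ t‖ ^ 2) (fun _ _ => by positivity) ht
      refine h2.trans (hψ.trans (le_of_eq ?_))
      rw [hD]; ring
  have hDJ : D * (J : ℝ) ^ 2 ≤ 1 := by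
    apply struct_arith n s J K D hs0 hn0 (by linarith) hnJ2
    rw [hD]
    apply div_le_div_of_nonneg_right _ (by positivity)
    have h1 : (T.card : ℝ) ≤ 2 * R.card + 1 := by exact_mod_cast hTcard2
    linarith
  obtain ⟨g, k, Kg, hk, hkc, hcov⟩ := lift_gen (p * q) T hTneg hT0 (by
    have : 0 < R.card := by
      have : (0 : ℝ) < R.card := by linarith
      exact_mod_cast this
    obtain ⟨r, hr⟩ := Finset.card_pos.1 this
    refine ⟨r, by rw [hT]; exact subset_sym R hr, ?_⟩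
    rintro rfl
    exact hR0 hr) hTunit c hc0 δ D hδ0 (by linarith) J (by linarith) hDt hDJ hTJ
  refine ⟨R, rho, τ, g, k, Kg, hRA, hrhoR, hrhon, ?_, hτup, hk, ?_, hplow, ?_⟩
  · have h2 : (1 - δ / 8) * (n : ℝ) ≤ (1 - 2 * d) * n := by
      apply mul_le_mul_of_nonneg_right _ hn0.le
      rw [hd, hθ]
      linarith
    linarith
  · have h3 : (T.card : ℝ) - 1 = τ := by rw [hτT]; push_cast; ring
    rw [h3] at hkc
    exact hkc
  · intro t ht
    obtain ⟨j, hj1, hj2, hj3⟩ := hcov t (by rw [hT]; exact subset_sym R ht)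
    refine ⟨j, hj1, hj2, fun h => ?_⟩
    have := hj3 h
    rw [this] at ht
    exact hR0 ht

end Pool.Agent.Helper774.PQ
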