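import Pool.Agent.Helper774.SS.End3
open Finset

set_option autoImplicit false

namespace Pool.Agent.Helper774.PQ

open Pool.Agent.Helper774.SS

variable {p : ℕ}

theorem endgame_gen [NeZero p] (m w L : ℕ) (A R : Finset (ZMod p)) (hRA : R ⊆ A)
    (h0R : (0 : ZMod p) ∉ R) (hfR : ∀ a ∈ R, |ZMod.valMinAbs a| ≤ (L : ℤ))
    (hm : A.card = m)
    (hp : 4 * p ≤ m * m + 2 * m + 8)
    (hw : 20 * w ≤ m) (hw2 : m < 20 * w + 20)
    (hR : 99 * m ≤ 100 * R.card) (hL : 200 * L ≤ 101 * m)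
    (hbig : 100 ≤ w)
    (hpw : w ≤ p) (hN : (p : ℤ) - 1 ≤ ∑ a ∈ A, |ZMod.valMinAbs a|) (z : ZMod p) :
    ∃ B ⊆ A, B.sum id = z := by
  set P := R.filter (fun a => 0 < ZMod.valMinAbs a) with hP
  set Q := R.filter (fun a => ¬ (0 < ZMod.valMinAbs a)) with hQ
  have hv0 : ∀ a : ZMod p, ZMod.valMinAbs a = 0 → a = 0 := by
    intro a h
    rw [← ZMod.coe_valMinAbs a, h]
    simp
  have hvinj : ∀ a b : ZMod p, ZMod.valMinAbs a = ZMod.valMinAbs b → a = b := by
    intro a b h
    rw [← ZMod.coe_valMinAbs a, h, ZMod.coe_valMinAbs]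
  have hrR : ∀ a ∈ R, 1 ≤ av a ∧ av a ≤ L := by
    intro a ha
    have h1 := hfR a ha
    have h2 : ZMod.valMinAbs a ≠ 0 := by
      intro h
      exact h0R ((hv0 a h) ▸ ha)
    unfold av
    constructor
    · omega
    · rw [abs_le] at h1
      omega
  have hcov : ∀ y : ℕ, y < p → ∃ x, Rep (av (p := p)) A x ∧ (x = y ∨ x = y + p) := by
    intro y hy
    apply end_cover (f := av) A P Q p m w L ((filter_subset _ _).trans hRA)
      ((filter_subset _ _).trans hRA) (disjoint_filter_filter_not _ _ _) _ _ _ _ _ _ hm hp hw hw2 _ hL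
      _ hbig hpw _ y hy
    · intro a ha b hb hab
      rw [mem_coe, hP, mem_filter] at ha hb
      apply hvinj
      unfold av at hab
      omega
    · intro a ha b hb hab
      rw [mem_coe, hQ, mem_filter] at ha hb
      apply hvinj
      unfold av at hab
      omega
    · intro a ha
      exact hrR a (mem_filter.mp ha).1
    · intro a ha
      exact hrR a (mem_filter.mp ha).1
    · intro v hv
      refine le_trans (card_le_card (t := {(v : ZMod p), -(v : ZMod p)}) ?_) card_le_two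
      intro a ha
      rw [mem_filter] at ha
      rw [mem_insert, mem_singleton]
      rcases lt_or_ge (ZMod.valMinAbs a) 0 with h | h
      · right
        rw [← ha.2, cast_av_of_neg h, neg_neg]
      · left
        rw [← ha.2, cast_av_of_nonneg h]
    · refine le_trans (card_le_card (t := {(0 : ZMod p)}) ?_) (by simp)
      intro a ha
      rw [mem_filter] at ha
      rw [mem_singleton]
      apply hv0
      have := ha.2
      unfold av at this
      omega
    · have h1 := card_filter_add_card_filter_not (s := R) (fun a => 0 < ZMod.valMinAbs a)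
      have h2 : P.card + Q.card = R.card := h1
      rw [h2]
      exact hR
    · intro a _
      have := ZMod.natAbs_valMinAbs_le a
      unfold av
      omega
    · have h1 : ∑ a ∈ A, |ZMod.valMinAbs a| = ((∑ a ∈ A, av a : ℕ) : ℤ) := by
        push_cast
        apply sum_congr rfl
        intro a _
        unfold av
        rw [Int.natCast_natAbs]
      rw [h1] at hN
      omega
  -- flip
  set Ng := A.filter (fun a => ZMod.valMinAbs a < 0) with hNg
  obtain ⟨x, hx, hxy⟩ := hcov ((z + ∑ a ∈ Ng, (av a : ZMod p)).val) (ZMod.val_lt _)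
  have hxz : (x : ZMod p) = z + ∑ a ∈ Ng, (av a : ZMod p) := by
    rcases hxy with h | h
    · rw [h, ZMod.natCast_zmod_val]
    · rw [h, Nat.cast_add, ZMod.natCast_zmod_val, ZMod.natCast_self, add_zero]
  obtain ⟨B, hBA, hBx⟩ := hx
  refine ⟨(B \ Ng) ∪ (Ng \ B), union_subset (sdiff_subset.trans hBA)
    (sdiff_subset.trans (filter_subset _ _)), ?_⟩
  rw [sum_union (by
    rw [disjoint_left]
    intro a ha hb
    rw [mem_sdiff] at ha hb
    exact ha.2 hb.1)]
  have h1 : ∑ a ∈ B \ Ng, id a = ∑ a ∈ B \ Ng, (av a : ZMod p) := by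
    apply sum_congr rfl
    intro a ha
    rw [mem_sdiff] at ha
    have : 0 ≤ ZMod.valMinAbs a := by
      by_contra h
      exact ha.2 (mem_filter.mpr ⟨hBA ha.1, by omega⟩)
    rw [cast_av_of_nonneg this]
    rfl
  have h2 : ∑ a ∈ Ng \ B, id a = - ∑ a ∈ Ng \ B, (av a : ZMod p) := by
    rw [← sum_neg_distrib]
    apply sum_congr rfl
    intro a ha
    rw [mem_sdiff, hNg, mem_filter] at ha
    rw [cast_av_of_neg ha.1.2, neg_neg]
    rfl
  have h3 : ∑ a ∈ B \ Ng, (av a : ZMod p) + ∑ a ∈ B ∩ Ng, (av a : ZMod p)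
      = ∑ a ∈ B, (av a : ZMod p) := by
    rw [← sum_sdiff (inter_subset_left : B ∩ Ng ⊆ B), sdiff_inter_self_left]
  have h4 : ∑ a ∈ Ng \ B, (av a : ZMod p) + ∑ a ∈ B ∩ Ng, (av a : ZMod p)
      = ∑ a ∈ Ng, (av a : ZMod p) := by
    rw [← sum_sdiff (inter_subset_right : B ∩ Ng ⊆ Ng)]
    congr 2
    ext a
    simp only [mem_sdiff, mem_inter]
    tauto
  have h5 : ∑ a ∈ B, (av a : ZMod p) = (x : ZMod p) := by
    rw [← hBx]
    push_cast
    rfl
  rw [h1, h2]
  linear_combination h3 - h4 + h5 + hxz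



/-- the easy direction -/
theorem easy_gen {p : ℕ} [NeZero p] (A : Finset (ZMod p))
    (h : ∑ y ∈ A, |ZMod.valMinAbs y| ≤ (p : ℤ) - 2) :
    ∃ x : ZMod p, ∀ B : Finset (ZMod p), B ⊆ A → B.sum id ≠ x := by
  refine ⟨((1 + ∑ y ∈ A, max (ZMod.valMinAbs y) 0 : ℤ) : ZMod p), ?_⟩
  intro B hB heq
  have h1 : B.sum id = ((∑ y ∈ B, ZMod.valMinAbs y : ℤ) : ZMod p) := by
    rw [Int.cast_sum]
    apply sum_congr rfl
    intro y _
    rw [ZMod.coe_valMinAbs]
    rfl
  rw [h1, ← sub_eq_zero, ← Int.cast_sub, ZMod.intCast_zmod_eq_zero_iff_dvd] at heq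
  have h2 : ∑ y ∈ B, ZMod.valMinAbs y ≤ ∑ y ∈ A, max (ZMod.valMinAbs y) 0 := by
    calc ∑ y ∈ B, ZMod.valMinAbs y ≤ ∑ y ∈ B, max (ZMod.valMinAbs y) 0 :=
          sum_le_sum (fun y _ => le_max_left _ _)
      _ ≤ _ := sum_le_sum_of_subset_of_nonneg hB (fun y _ _ => le_max_right _ _)
  have h3 : ∑ y ∈ A, max (ZMod.valMinAbs y) 0 - ∑ y ∈ B, ZMod.valMinAbs y
      ≤ ∑ y ∈ A, |ZMod.valMinAbs y| := by
    rw [← sum_sdiff hB, ← sum_sdiff hB (f := fun y => |ZMod.valMinAbs y|)]
    have h4 : ∑ y ∈ A \ B, max (ZMod.valMinAbs y) 0 ≤ ∑ y ∈ A \ B, |ZMod.valMinAbs y| :=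
      sum_le_sum (fun y _ => max_le (le_abs_self _) (abs_nonneg _))
    have h5 : ∑ y ∈ B, max (ZMod.valMinAbs y) 0
        ≤ ∑ y ∈ B, |ZMod.valMinAbs y| + ∑ y ∈ B, ZMod.valMinAbs y := by
      rw [← sum_add_distrib]
      apply sum_le_sum
      intro y _
      rcases le_total 0 (ZMod.valMinAbs y) with h | h
      · rw [max_eq_left h, abs_of_nonneg h]; linarith
      · rw [max_eq_right h, abs_of_nonpos h]; linarith
    linarith
  obtain ⟨k, hk⟩ := heq
  have hp : (0 : ℤ) < p := by exact_mod_cast Nat.pos_of_ne_zero (NeZero.ne p)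
  have hk1 : -(p : ℤ) < p * k := by linarith
  have hk2 : (p : ℤ) * k < 0 := by linarith
  have hk3 : k < 0 := by
    by_contra h'
    push Not at h'
    have : 0 ≤ (p : ℤ) * k := by positivity
    linarith
  have hk4 : -1 < k := by
    by_contra h'
    push Not at h'
    have : (p : ℤ) * k ≤ p * (-1) := mul_le_mul_of_nonneg_left h' hp.le
    linarith
  omega

theorem sums_dilate_gen {p : ℕ} (b : ZMod p) (hb : IsUnit b) (A B : Finset (ZMod p))
    (hB : B ⊆ A) : ∃ B' ⊆ A.image (fun a => b * a), B'.sum id = b * B.sum id := by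
  refine ⟨B.image (fun a => b * a), image_subset_image hB, ?_⟩
  rw [sum_image (by
    intro x _ y _ h
    exact hb.mul_left_cancel h), mul_sum]
  rfl

theorem sums_undilate_gen {p : ℕ} (b : ZMod p) (hb : IsUnit b) (A B' : Finset (ZMod p))
    (hB : B' ⊆ A.image (fun a => b * a)) : ∃ B ⊆ A, B'.sum id = b * B.sum id := by
  rw [subset_image_iff] at hB
  obtain ⟨B, hBA, hB⟩ := hB
  refine ⟨B, hBA, ?_⟩
  rw [← hB, sum_image (by
    intro x _ y _ h
    exact hb.mul_left_cancel h), mul_sum]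
  rfl


end Pool.Agent.Helper774.PQ
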