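import Mathlib
import Pool.Agent.Helper774.PQ.Kn

set_option autoImplicit false
set_option linter.unusedSectionVars false

open Finset
open scoped Pointwise

namespace Pool.Agent.Helper774.PQ

/-- in a group with a subgroup of prime index, multiples of an outside element reach every coset -/
theorem reach {G : Type*} [AddCommGroup G] [Finite G] (H : AddSubgroup G) (r : ℕ) (hr : r.Prime)
    (hcard : Nat.card H * r = Nat.card G) (g : G) (hg : g ∉ H) (y : G) (s : ℤ) :
    ∃ j : ℤ, s ≤ j ∧ j < s + r ∧ y - j • g ∈ H := by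
  have h1 : Nat.card (G ⧸ H) = r := by
    have h2 := AddSubgroup.card_eq_card_quotient_mul_card_addSubgroup H
    rw [← hcard, mul_comm] at h2
    have h3 : 0 < Nat.card H := Nat.card_pos
    exact (Nat.eq_of_mul_eq_mul_right h3 h2).symm
  have : Fact r.Prime := ⟨hr⟩
  have h2 : (QuotientAddGroup.mk g : G ⧸ H) ≠ 0 := by
    intro h
    exact hg ((QuotientAddGroup.eq_zero_iff g).1 h)
  have h3 : (QuotientAddGroup.mk y : G ⧸ H) ∈ AddSubgroup.zmultiples (QuotientAddGroup.mk g : G ⧸ H) :=
    mem_zmultiples_of_prime_card (p := r) h1 h2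
  obtain ⟨n, hn⟩ := AddSubgroup.mem_zmultiples_iff.1 h3
  have hr0 : (0 : ℤ) < r := by exact_mod_cast hr.pos
  refine ⟨s + (n - s) % r, ?_, ?_, ?_⟩
  · have := Int.emod_nonneg (n - s) hr0.ne'
    omega
  · have := Int.emod_lt_of_pos (n - s) hr0
    omega
  · rw [← QuotientAddGroup.eq_zero_iff]
    have h4 : s + (n - s) % r = n - r * ((n - s) / r) := by
      have := Int.emod_add_mul_ediv (n - s) r
      linarith
    have h5 : ((r : ℤ) * ((n - s) / r)) • (QuotientAddGroup.mk g : G ⧸ H) = 0 := by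
      rw [mul_comm, mul_zsmul]
      have h6 : (r : ℤ) • (QuotientAddGroup.mk g : G ⧸ H) = 0 := by
        rw [natCast_zsmul, ← h1]
        exact card_nsmul_eq_zero'
      rw [h6, smul_zero]
    rw [QuotientAddGroup.mk_sub, QuotientAddGroup.mk_zsmul, h4, sub_zsmul, h5, hn]
    simp

theorem pair_sum {G : Type*} [AddCommGroup G] [Fintype G] [DecidableEq G] (H : AddSubgroup G)
    (hodd : ∀ a b : G, a + a = b + b → a = b) (g : G) (C : Finset G)
    (hC : ∀ c ∈ C, c - g ∈ H) (hcard : Nat.card H + 2 ≤ 2 * C.card) (x : G)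
    (hx : x - (g + g) ∈ H) : ∃ a ∈ C, ∃ b ∈ C, a ≠ b ∧ a + b = x := by
  classical
  obtain ⟨C', hC'⟩ : ∃ C', C' = C.image (fun c => x - c) := ⟨_, rfl⟩
  have hinj : Function.Injective (fun c : G => x - c) := fun a b h => by
    simpa using h
  have h1 : C'.card = C.card := by rw [hC', Finset.card_image_of_injective _ hinj]
  have h2 : C ∪ C' ⊆ (Kneser.fs H).image (fun v => g + v) := by
    intro y hy
    rw [Finset.mem_image]
    refine ⟨y - g, ?_, by abel⟩
    rw [Kneser.mem_fs]
    rcases Finset.mem_union.1 hy with h | h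
    · exact hC y h
    · rw [hC', Finset.mem_image] at h
      obtain ⟨c, hc, rfl⟩ := h
      have : x - c - g = (x - (g + g)) - (c - g) := by abel
      rw [this]
      exact H.sub_mem hx (hC c hc)
  have h3 := (Finset.card_le_card h2).trans Finset.card_image_le
  rw [card_fs] at h3
  have h4 := Finset.card_union_add_card_inter C C'
  have h5 : 1 < (C ∩ C').card := by omega
  obtain ⟨a, ha, b, hb, hab⟩ := Finset.one_lt_card.1 h5
  rw [Finset.mem_inter, hC', Finset.mem_image] at ha hb
  obtain ⟨ha1, a', ha2, ha3⟩ := ha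
  obtain ⟨hb1, b', hb2, hb3⟩ := hb
  by_cases h6 : a = a'
  · by_cases h7 : b = b'
    · exfalso
      apply hab
      apply hodd
      rw [← h6] at ha3
      rw [← h7] at hb3
      have e1 : a + a = x := by
        have : x = a + a := by
          nth_rewrite 1 [← ha3]
          abel
        exact this.symm
      have e2 : b + b = x := by
        have : x = b + b := by
          nth_rewrite 1 [← hb3]
          abel
        exact this.symm
      rw [e1, e2]
    · refine ⟨b, hb1, b', hb2, h7, ?_⟩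
      rw [← hb3]; abel
  · refine ⟨a, ha1, a', ha2, h6, ?_⟩
    rw [← ha3]; abel

theorem two_cosets {G : Type*} [AddCommGroup G] [Fintype G] [DecidableEq G] (H : AddSubgroup G)
    (hodd : ∀ a b : G, a + a = b + b → a = b) (r : ℕ) (hr : r.Prime)
    (hcard : Nat.card H * r = Nat.card G) (g : G) (hg : g ∉ H) (R C D : Finset G)
    (hCR : C ⊆ R) (hDR : D ⊆ R) (hCD : Disjoint C D)
    (hC : ∀ c ∈ C, c - g ∈ H) (hD : ∀ d ∈ D, d + g ∈ H) (s : ℕ) (hs1 : Nat.card H + 2 ≤ 2 * s)
    (hs2 : s ≤ C.card) (hs3 : r + s ≤ C.card + D.card + 1) (y : G) :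
    y ∈ R.subsetSum := by
  classical
  obtain ⟨C0, hC0, hC0c⟩ := Finset.exists_subset_card_eq hs2
  have hC1c : (C \ C0).card = C.card - s := by
    rw [Finset.card_sdiff_of_subset hC0, hC0c]
  obtain ⟨j, hj1, hj2, hj3⟩ := reach H r hr hcard g hg (y - (g + g)) (-(D.card : ℤ))
  have hB : ∃ B ⊆ (C \ C0) ∪ D, (∑ b ∈ B, b) - j • g ∈ H := by
    rcases le_or_gt 0 j with h | h
    · obtain ⟨n, rfl⟩ := Int.eq_ofNat_of_zero_le h
      obtain ⟨B, hB1, hB2⟩ := Finset.exists_subset_card_eq (s := C \ C0) (n := n) (by omega)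
      refine ⟨B, hB1.trans Finset.subset_union_left, ?_⟩
      have h2 : (∑ b ∈ B, b) - (n : ℤ) • g = ∑ b ∈ B, (b - g) := by
        rw [Finset.sum_sub_distrib, Finset.sum_const, hB2, natCast_zsmul]
      rw [h2]
      exact H.sum_mem (fun b hb => hC b (Finset.sdiff_subset (hB1 hb)))
    · obtain ⟨n, hn⟩ : ∃ n : ℕ, j = -(n : ℤ) := ⟨(-j).toNat, by omega⟩
      obtain ⟨B, hB1, hB2⟩ := Finset.exists_subset_card_eq (s := D) (n := n) (by omega)
      refine ⟨B, hB1.trans Finset.subset_union_right, ?_⟩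
      have h2 : (∑ b ∈ B, b) - j • g = ∑ b ∈ B, (b + g) := by
        rw [Finset.sum_add_distrib, Finset.sum_const, hB2, hn, neg_zsmul, natCast_zsmul, sub_neg_eq_add]
      rw [h2]
      exact H.sum_mem (fun b hb => hD b (hB1 hb))
  obtain ⟨B, hB1, hB2⟩ := hB
  obtain ⟨a, ha, b, hb, hab, habx⟩ := pair_sum H hodd g C0 (fun c hc => hC c (hC0 hc)) (by omega)
    (y - ∑ b ∈ B, b) (by
      have : y - ∑ b ∈ B, b - (g + g) = (y - (g + g) - j • g) - ((∑ b ∈ B, b) - j • g) := by abel
      rw [this]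
      exact H.sub_mem hj3 hB2)
  rw [Finset.mem_subsetSum_iff]
  have hda : ∀ x ∈ C0, x ∉ B := by
    intro x hx hxB
    rcases Finset.mem_union.1 (hB1 hxB) with h | h
    · exact (Finset.mem_sdiff.1 h).2 hx
    · exact Finset.disjoint_left.1 hCD (hC0 hx) h
  refine ⟨{a, b} ∪ B, ?_, ?_⟩
  · apply Finset.union_subset
    · intro x hx
      rw [Finset.mem_insert, Finset.mem_singleton] at hx
      rcases hx with rfl | rfl
      · exact hCR (hC0 ha)
      · exact hCR (hC0 hb)
    · intro x hx
      rcases Finset.mem_union.1 (hB1 hx) with h | h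
      · exact hCR (Finset.mem_sdiff.1 h).1
      · exact hDR h
  · rw [Finset.sum_union (by
      rw [Finset.disjoint_left]
      intro x hx
      rw [Finset.mem_insert, Finset.mem_singleton] at hx
      rcases hx with rfl | rfl
      · exact hda _ ha
      · exact hda _ hb), Finset.sum_pair hab, habx]
    abel

end Pool.Agent.Helper774.PQ
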