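import Mathlib
import Pool.Agent.Helper398.Stab
import Pool.Agent.Helper774.PQ.Kn

set_option autoImplicit false
set_option linter.unusedSectionVars false

open Finset
open scoped Pointwise

namespace Pool.Agent.Helper774.PQ

open Pool.Agent.Helper398

theorem growth_prime {Q ι : Type*} [AddCommGroup Q] [Finite Q] [DecidableEq Q] [DecidableEq ι]
    (r : ℕ) (hr : r.Prime) (hQ : Nat.card Q = r) (f : ι → Q) (B : Finset ι) :
    (∀ b ∈ B, f b ≠ 0) →
    (∀ y : Q, ∃ C ⊆ B, ∑ c ∈ C, f c = y) ∨
    B.card + 1 ≤ (B.powerset.image (fun C => ∑ c ∈ C, f c)).card := by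
  induction B using Finset.induction_on with
  | empty =>
    intro _
    right
    simp
  | insert a B ha ih =>
    intro hB
    have hB' : ∀ b ∈ B, f b ≠ 0 := fun b hb => hB b (Finset.mem_insert_of_mem hb)
    rcases ih hB' with h | h
    · left
      intro y
      obtain ⟨C, hC, hy⟩ := h y
      exact ⟨C, hC.trans (Finset.subset_insert _ _), hy⟩
    · obtain ⟨I, hI⟩ : ∃ I, I = B.powerset.image (fun C => ∑ c ∈ C, f c) := ⟨_, rfl⟩
      rw [← hI] at h
      have hIm : ∀ y, y ∈ I ↔ ∃ C ⊆ B, ∑ c ∈ C, f c = y := by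
        intro y
        rw [hI, Finset.mem_image]
        constructor
        · rintro ⟨C, hC, hy⟩
          exact ⟨C, Finset.mem_powerset.1 hC, hy⟩
        · rintro ⟨C, hC, hy⟩
          exact ⟨C, Finset.mem_powerset.2 hC, hy⟩
      obtain ⟨I', hI'⟩ : ∃ I', I' = (insert a B).powerset.image (fun C => ∑ c ∈ C, f c) := ⟨_, rfl⟩
      have hsub : I ⊆ I' := by
        intro y hy
        rw [hIm] at hy
        obtain ⟨C, hC, hy⟩ := hy
        rw [hI', Finset.mem_image]
        exact ⟨C, Finset.mem_powerset.2 (hC.trans (Finset.subset_insert _ _)), hy⟩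
      have hsub2 : (f a +ᵥ I) ⊆ I' := by
        intro y hy
        rw [Finset.mem_vadd_finset] at hy
        obtain ⟨x, hx, rfl⟩ := hy
        rw [hIm] at hx
        obtain ⟨C, hC, rfl⟩ := hx
        rw [hI', Finset.mem_image]
        refine ⟨insert a C, Finset.mem_powerset.2 (Finset.insert_subset_insert _ hC), ?_⟩
        rw [Finset.sum_insert (fun h => ha (hC h)), vadd_eq_add]
      by_cases hst : f a +ᵥ I = I
      · left
        have h1 : f a ∈ stab I := hst
        have : Fact r.Prime := ⟨hr⟩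
        have h2 : ∀ y, y ∈ stab I := by
          intro y
          have h3 : y ∈ AddSubgroup.zmultiples (f a) :=
            mem_zmultiples_of_prime_card (p := r) hQ (hB a (Finset.mem_insert_self _ _))
          obtain ⟨n, rfl⟩ := AddSubgroup.mem_zmultiples_iff.1 h3
          exact (stab I).zsmul_mem h1 n
        intro y
        have h3 := h2 y
        rw [mem_stab] at h3
        have h4 : y ∈ I := by
          rw [← h3, Finset.mem_vadd_finset]
          exact ⟨0, (hIm 0).2 ⟨∅, Finset.empty_subset _, Finset.sum_empty⟩, by simp⟩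
        obtain ⟨C, hC, hy⟩ := (hIm y).1 h4
        exact ⟨C, hC.trans (Finset.subset_insert _ _), hy⟩
      · right
        rw [← hI', Finset.card_insert_of_notMem ha]
        have h1 : I ⊂ I' := by
          refine ⟨hsub, fun h2 => hst ?_⟩
          apply Finset.eq_of_subset_of_card_le (hsub2.trans h2)
          rw [Finset.card_vadd_finset]
        have h2 := Finset.card_lt_card h1
        omega

/-- few elements outside a nontrivial stabiliser of prime index -/
theorem outside_le {G : Type*} [AddCommGroup G] [Fintype G] [DecidableEq G] (A : Finset G)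
    (H : AddSubgroup G) (hH : H ≤ stab A.subsetSum) (r : ℕ) (hr : r.Prime)
    (hcard : Nat.card H * r = Nat.card G) (hA : A.subsetSum ≠ univ) [DecidablePred (· ∈ H)] :
    (A.filter (fun a => ¬ a ∈ H)).card + 2 ≤ r := by
  classical
  have h1 : Nat.card (G ⧸ H) = r := by
    have h2 := AddSubgroup.card_eq_card_quotient_mul_card_addSubgroup H
    rw [← hcard, mul_comm] at h2
    have h3 : 0 < Nat.card H := Nat.card_pos
    exact (Nat.eq_of_mul_eq_mul_right h3 h2).symm
  by_contra hcon
  push Not at hcon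
  apply hA
  obtain ⟨B, hB⟩ : ∃ B, B = A.filter (fun a => ¬ a ∈ H) := ⟨_, rfl⟩
  rw [← hB] at hcon
  have hall : ∀ y : G ⧸ H, ∃ C ⊆ B, ∑ c ∈ C, (QuotientAddGroup.mk' H) c = y := by
    rcases growth_prime r hr h1 (QuotientAddGroup.mk' H) B (by
      intro b hb h
      rw [hB, Finset.mem_filter] at hb
      rw [QuotientAddGroup.mk'_apply, QuotientAddGroup.eq_zero_iff] at h
      exact hb.2 h) with h | h
    · exact h
    · intro y
      have h2 : (B.powerset.image (fun C => ∑ c ∈ C, (QuotientAddGroup.mk' H) c)).card ≥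
          Nat.card (G ⧸ H) := by omega
      have : Fintype (G ⧸ H) := Fintype.ofFinite _
      have h3 : B.powerset.image (fun C => ∑ c ∈ C, (QuotientAddGroup.mk' H) c) = univ := by
        apply Finset.eq_univ_of_card
        apply le_antisymm (Finset.card_le_univ _)
        rw [← Nat.card_eq_fintype_card]
        exact h2
      have h4 := Finset.mem_univ y
      rw [← h3, Finset.mem_image] at h4
      obtain ⟨C, hC, hy⟩ := h4
      exact ⟨C, Finset.mem_powerset.1 hC, hy⟩
  rw [Finset.eq_univ_iff_forall]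
  intro y
  obtain ⟨C, hC, hy⟩ := hall (QuotientAddGroup.mk' H y)
  rw [← map_sum] at hy
  have h2 : y - ∑ c ∈ C, c ∈ H := by
    rw [← QuotientAddGroup.eq_zero_iff, ← QuotientAddGroup.mk'_apply, map_sub, hy, sub_self]
  have h3 := hH h2
  rw [mem_stab] at h3
  rw [← h3, Finset.mem_vadd_finset]
  refine ⟨∑ c ∈ C, c, ?_, ?_⟩
  · rw [Finset.mem_subsetSum_iff]
    exact ⟨C, hC.trans (by rw [hB]; exact Finset.filter_subset _ _), rfl⟩
  · rw [vadd_eq_add]; abel

theorem filter_mem_le {G : Type*} [AddCommGroup G] [Fintype G] [DecidableEq G] (A : Finset G)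
    (H : AddSubgroup G) [DecidablePred (· ∈ H)] : (A.filter (fun a => a ∈ H)).card ≤ Nat.card H := by
  rw [← card_fs]
  apply Finset.card_le_card
  intro x hx
  rw [Finset.mem_filter] at hx
  exact Kneser.mem_fs.2 hx.2

theorem stab_bot (p q : ℕ) (hp : p.Prime) (hq : q.Prime) [NeZero (p * q)]
    (A : Finset (ZMod (p * q))) (hA : p + q ≤ A.card + 1) (hne : A.subsetSum ≠ univ) :
    stab A.subsetSum = ⊥ := by
  classical
  rcases card_sub p q hp hq (stab A.subsetSum) with h | h | h | h
  · exact AddSubgroup.eq_bot_of_card_eq _ h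
  · exfalso
    have h1 := outside_le A (stab A.subsetSum) le_rfl q hq (by rw [h, Nat.card_zmod]) hne
    have h2 := filter_mem_le A (stab A.subsetSum)
    have h3 := Finset.card_filter_add_card_filter_not (s := A) (fun a => a ∈ stab A.subsetSum)
    omega
  · exfalso
    have h1 := outside_le A (stab A.subsetSum) le_rfl p hp (by rw [h, Nat.card_zmod, mul_comm]) hne
    have h2 := filter_mem_le A (stab A.subsetSum)
    have h3 := Finset.card_filter_add_card_filter_not (s := A) (fun a => a ∈ stab A.subsetSum)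
    omega
  · exfalso
    apply hne
    have h1 : stab A.subsetSum = ⊤ := by
      apply card_eq_top
      rw [h, Nat.card_zmod]
    rw [Finset.eq_univ_iff_forall]
    intro y
    have h2 : y ∈ stab A.subsetSum := by rw [h1]; exact AddSubgroup.mem_top _
    rw [mem_stab] at h2
    rw [← h2, Finset.mem_vadd_finset]
    exact ⟨0, Finset.zero_mem_subsetSum, by simp⟩

theorem ns_erase (p q : ℕ) (hp : p.Prime) (hq : q.Prime) [NeZero (p * q)]
    (A : Finset (ZMod (p * q))) (hA : p + q ≤ A.card + 1) (hne : A.subsetSum ≠ univ) :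
    NS (A.erase 0) := by
  intro x hx hst
  rw [Finset.subsetSum_erase_zero] at hst
  have h1 : x ∈ stab A.subsetSum := hst
  rw [stab_bot p q hp hq A hA hne, AddSubgroup.mem_bot] at h1
  exact (Finset.mem_erase.1 hx).1 h1

theorem sub_sq (p q : ℕ) (hp : p.Prime) (hq : q.Prime) (hpq : p ≤ q) [NeZero (p * q)]
    (A : Finset (ZMod (p * q))) (hA : NS A) (H : AddSubgroup (ZMod (p * q))) (hH : H ≠ ⊤)
    [DecidablePred (· ∈ H)] : (A.filter (fun a => a ∈ H)).card ^ 2 ≤ 288 * q := by
  have h1 := crude_bound' _ (A.filter (fun a => a ∈ H)) rfl (hA.mono (Finset.filter_subset _ _))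
  have h2 : (A.filter (fun a => a ∈ H)).subsetSum.card ≤ Nat.card H := by
    rw [← card_fs]
    apply Finset.card_le_card
    intro x hx
    rw [Finset.mem_subsetSum_iff] at hx
    obtain ⟨B, hB, rfl⟩ := hx
    rw [Kneser.mem_fs]
    exact H.sum_mem (fun b hb => (Finset.mem_filter.1 (hB hb)).2)
  have h3 : Nat.card H ≤ q := by
    rcases card_sub p q hp hq H with h | h | h | h
    · have := hq.one_lt
      omega
    · omega
    · omega
    · exfalso
      apply hH
      apply card_eq_top
      rw [h, Nat.card_zmod]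
  nlinarith

theorem few_nonunits (p q : ℕ) (hp : p.Prime) (hq : q.Prime) (hpq : p ≤ q) [NeZero (p * q)]
    (A : Finset (ZMod (p * q))) (hA : NS A) [DecidablePred (IsUnit (M := ZMod (p * q)))] :
    (A.filter (fun a => ¬ IsUnit a)).card ^ 2 ≤ 1152 * q := by
  classical
  obtain ⟨Hp, hHp⟩ : ∃ H : AddSubgroup (ZMod (p * q)), ∀ x, x ∈ H ↔ (p : ZMod (p * q)) * x = 0 :=
    ⟨(AddMonoidHom.mulLeft (p : ZMod (p * q))).ker, fun x => by rw [AddMonoidHom.mem_ker]; rfl⟩
  obtain ⟨Hq, hHq⟩ : ∃ H : AddSubgroup (ZMod (p * q)), ∀ x, x ∈ H ↔ (q : ZMod (p * q)) * x = 0 :=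
    ⟨(AddMonoidHom.mulLeft (q : ZMod (p * q))).ker, fun x => by rw [AddMonoidHom.mem_ker]; rfl⟩
  have hp1 := hp.one_lt
  have hq1 := hq.one_lt
  have h1 : Hp ≠ ⊤ := by
    intro h
    have h2 : (1 : ZMod (p * q)) ∈ Hp := by rw [h]; exact AddSubgroup.mem_top _
    rw [hHp, mul_one, ZMod.natCast_eq_zero_iff] at h2
    have := Nat.le_of_dvd (by omega) h2
    nlinarith
  have h2 : Hq ≠ ⊤ := by
    intro h
    have h2 : (1 : ZMod (p * q)) ∈ Hq := by rw [h]; exact AddSubgroup.mem_top _
    rw [hHq, mul_one, ZMod.natCast_eq_zero_iff] at h2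
    have := Nat.le_of_dvd (by omega) h2
    nlinarith
  have h3 := sub_sq p q hp hq hpq A hA Hp h1
  have h4 := sub_sq p q hp hq hpq A hA Hq h2
  have h5 : A.filter (fun a => ¬ IsUnit a) ⊆
      A.filter (fun a => a ∈ Hp) ∪ A.filter (fun a => a ∈ Hq) := by
    intro x hx
    rw [Finset.mem_filter] at hx
    rw [Finset.mem_union, Finset.mem_filter, Finset.mem_filter, hHp, hHq]
    have h6 : ¬ Nat.Coprime x.val (p * q) := by
      intro h
      apply hx.2
      have := (ZMod.unitOfCoprime x.val h).isUnit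
      rwa [ZMod.coe_unitOfCoprime, ZMod.natCast_zmod_val] at this
    rw [Nat.coprime_mul_iff_right] at h6
    have h7 : x = ((x.val : ℕ) : ZMod (p * q)) := (ZMod.natCast_zmod_val x).symm
    by_cases h8 : Nat.Coprime x.val p
    · have h9 : ¬ Nat.Coprime x.val q := fun h => h6 ⟨h8, h⟩
      have h10 : q ∣ x.val := by
        by_contra h
        exact h9 ((Nat.Prime.coprime_iff_not_dvd hq).2 h).symm
      left
      refine ⟨hx.1, ?_⟩
      obtain ⟨k, hk⟩ := h10
      rw [h7, hk, ← Nat.cast_mul, ZMod.natCast_eq_zero_iff]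
      exact ⟨k, by ring⟩
    · have h10 : p ∣ x.val := by
        by_contra h
        exact h8 ((Nat.Prime.coprime_iff_not_dvd hp).2 h).symm
      right
      refine ⟨hx.1, ?_⟩
      obtain ⟨k, hk⟩ := h10
      rw [h7, hk, ← Nat.cast_mul, ZMod.natCast_eq_zero_iff]
      exact ⟨k, by ring⟩
  have h6 := (Finset.card_le_card h5).trans (Finset.card_union_le _ _)
  obtain ⟨a, ha⟩ : ∃ a, a = (A.filter (fun a => a ∈ Hp)).card := ⟨_, rfl⟩
  obtain ⟨b, hb⟩ : ∃ b, b = (A.filter (fun a => a ∈ Hq)).card := ⟨_, rfl⟩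
  rw [← ha] at h3 h6
  rw [← hb] at h4 h6
  have h7 : (A.filter (fun a => ¬ IsUnit a)).card ^ 2 ≤ (a + b) ^ 2 := Nat.pow_le_pow_left h6 2
  have h8 : (a + b) ^ 2 ≤ 2 * a ^ 2 + 2 * b ^ 2 := by nlinarith [sq_nonneg ((a : ℤ) - b)]
  omega

end Pool.Agent.Helper774.PQ
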