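import Mathlib
import Pool.Agent.Helper774.PQ.Core
import Pool.Agent.Helper774.PQ.Excl

set_option autoImplicit false
set_option linter.unusedSectionVars false

open Finset
open scoped Pointwise

namespace Pool.Agent.Helper774.PQ

open Pool.Agent.Helper398

theorem odd_double (m : ℕ) (hm : Odd m) (a b : ZMod m) (h : a + a = b + b) : a = b := by
  have h1 : IsUnit ((2 : ℕ) : ZMod m) := by
    have h2 : Nat.Coprime 2 m := by
      rw [Nat.coprime_two_left]
      exact hm
    have := (ZMod.unitOfCoprime 2 h2).isUnit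
    rwa [ZMod.coe_unitOfCoprime] at this
  have h2 : ((2 : ℕ) : ZMod m) * a = ((2 : ℕ) : ZMod m) * b := by
    push_cast
    linear_combination h
  exact h1.mul_left_cancel h2

theorem abs_valMinAbs_le (m : ℕ) [NeZero m] (j : ℤ) : |((j : ℤ) : ZMod m).valMinAbs| ≤ |j| := by
  by_cases h : 2 * |j| < m
  · rw [valMinAbs_of_small m j h]
  · have h1 := ZMod.valMinAbs_mem_Ioc ((j : ℤ) : ZMod m)
    push Not at h
    rw [abs_le]
    constructor
    · have := h1.1; omega
    · have := h1.2; omega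

/-- the case of two cosets spans everything -/
theorem case_coset (p q h r : ℕ) (hp : p.Prime) (hq : q.Prime) (hp3 : 3 ≤ p) (hpq : p ≤ q)
    [NeZero (p * q)] (hh : h = p ∨ h = q) (hr : r.Prime) (hhr : h * r = p * q)
    (hrh : (r : ℝ) ≤ 101 / 100 * h) (hh40 : 100 ≤ h)
    (A R : Finset (ZMod (p * q))) (hRA : R ⊆ A) (hunit : ∀ a ∈ A, IsUnit a)
    (K : AddSubgroup (ZMod (p * q))) (hK : Nat.card K = h) (g : ZMod (p * q))
    (hR : 19 / 10 * (h : ℝ) ≤ R.card)
    (hcov : ∀ t ∈ R, ∃ j : ℤ, |j| ≤ 1 ∧ t - j • g ∈ K ∧ j ≠ 0) : A.subsetSum = univ := by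
  classical
  have hKtop : K ≠ ⊤ := by
    intro h1
    have h2 : Nat.card K = p * q := by rw [h1, AddSubgroup.card_top, Nat.card_zmod]
    rw [hK] at h2
    have hp1 := hp.one_lt
    have hq1 := hq.one_lt
    rcases hh with rfl | rfl <;> nlinarith
  have hRpos : 0 < R.card := by
    have h1 : (0 : ℝ) < R.card := by
      have : (100 : ℝ) ≤ h := by exact_mod_cast hh40
      linarith
    exact_mod_cast h1
  obtain ⟨a0, ha0⟩ := Finset.card_pos.1 hRpos
  have hcov' : ∀ t ∈ R, t - g ∈ K ∨ t + g ∈ K := by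
    intro t ht
    obtain ⟨j, hj1, hj2, hj3⟩ := hcov t ht
    rw [abs_le] at hj1
    have : j = 1 ∨ j = -1 := by omega
    rcases this with rfl | rfl
    · left; rwa [one_zsmul] at hj2
    · right; rwa [neg_one_zsmul, sub_neg_eq_add] at hj2
  have hg : g ∉ K := by
    intro hgK
    apply hKtop
    apply unit_mem_top (p * q) K a0 (hunit a0 (hRA ha0))
    rcases hcov' a0 ha0 with h1 | h1
    · have := K.add_mem h1 hgK
      rwa [sub_add_cancel] at this
    · have := K.sub_mem h1 hgK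
      rwa [add_sub_cancel_right] at this
  have hodd : Odd (p * q) := by
    exact Odd.mul (hp.odd_of_ne_two (by omega)) (hq.odd_of_ne_two (by omega))
  obtain ⟨C, hC⟩ : ∃ C, C = R.filter (fun a => a - g ∈ K) := ⟨_, rfl⟩
  obtain ⟨D, hD⟩ : ∃ D, D = R.filter (fun a => ¬ (a - g ∈ K)) := ⟨_, rfl⟩
  have hCD : C.card + D.card = R.card := by
    rw [hC, hD]
    exact Finset.card_filter_add_card_filter_not (fun a => a - g ∈ K)
  have hCh : C.card ≤ h := by
    rw [← hK, ← card_fs K, ← Finset.card_image_of_injective C (sub_left_injective (b := g))]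
    apply Finset.card_le_card
    intro x hx
    rw [Finset.mem_image] at hx
    obtain ⟨a, ha, rfl⟩ := hx
    rw [hC, Finset.mem_filter] at ha
    exact Kneser.mem_fs.2 ha.2
  have hDm : ∀ d ∈ D, d + g ∈ K := by
    intro d hd
    rw [hD, Finset.mem_filter] at hd
    exact (hcov' d hd.1).resolve_left hd.2
  have hDh : D.card ≤ h := by
    rw [← hK, ← card_fs K, ← Finset.card_image_of_injective D (add_left_injective g)]
    apply Finset.card_le_card
    intro x hx
    rw [Finset.mem_image] at hx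
    obtain ⟨a, ha, rfl⟩ := hx
    exact Kneser.mem_fs.2 (hDm a ha)
  have hR' : 19 * h ≤ 10 * R.card := by
    have : 19 * (h : ℝ) ≤ 10 * R.card := by linarith
    exact_mod_cast this
  have hr' : 100 * r ≤ 101 * h := by
    have : 100 * (r : ℝ) ≤ 101 * h := by linarith
    exact_mod_cast this
  rw [Finset.eq_univ_iff_forall]
  intro y
  apply Finset.subsetSum_mono hRA
  apply two_cosets K (odd_double _ hodd) r hr (by rw [hK, Nat.card_zmod, hhr]) g hg R C D
    (by rw [hC]; exact Finset.filter_subset _ _) (by rw [hD]; exact Finset.filter_subset _ _)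
    (by rw [hC, hD]; exact Finset.disjoint_filter_filter_not _ _ _)
    (by intro c hc; rw [hC, Finset.mem_filter] at hc; exact hc.2) hDm (h / 2 + 2)
    (by rw [hK]; omega) (by omega) (by omega)

/-- The structure theorem for nearly extremal sets of units modulo a product of two close primes. -/
theorem struct_pq (ε : ℝ) (hε : 0 < ε) (hε1 : ε ≤ 1 / 25) : ∃ ξ : ℝ, 0 < ξ ∧ ξ ≤ 1 / 100 ∧
    ∃ M : ℕ, ∀ p q : ℕ, p.Prime → q.Prime → 3 ≤ p → p ≤ q → (q : ℝ) ≤ (1 + ξ) * p →
    ∀ [NeZero (p * q)] (A : Finset (ZMod (p * q))), NS A → (∀ a ∈ A, IsUnit a) → M ≤ A.card →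
    ((p * q : ℕ) : ℝ) ≤ (1 + ξ) * ((A.card : ℝ) ^ 2 / 4) →
    A.subsetSum = univ ∨
    ∃ (b : ZMod (p * q)) (R : Finset (ZMod (p * q))) (h : ℕ), IsUnit b ∧ R ⊆ A ∧
      (1 - ε) * A.card ≤ R.card ∧ 2 * (h : ℝ) ≤ (1 + ε) * A.card ∧
      ∀ a ∈ R, |(b * a).valMinAbs| ≤ h := by
  obtain ⟨δ, hδ⟩ : ∃ δ : ℝ, δ = ε / 4 := ⟨_, rfl⟩
  have hδ0 : 0 < δ := by rw [hδ]; positivity
  have hδ1 : δ ≤ 1 / 100 := by rw [hδ]; linarith
  obtain ⟨ξ, hξ0, hξ1, M, hM⟩ := struct_core δ hδ0 (by linarith)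
  refine ⟨ξ, hξ0, hξ1, max M 230, ?_⟩
  intro p q hp hq hp3 hpq hqp _ A hNS hunit hMA hA
  obtain ⟨R, rho, τ, g, k, K, hRA, hrho1, hrho2, hrho3, hτ, hk, hkc, hn5, hcov⟩ :=
    hM p q hp hq hpq hqp A hNS hunit (le_trans (le_max_left _ _) hMA) hA
  have hA230 : (230 : ℝ) ≤ A.card := by exact_mod_cast le_trans (le_max_right _ _) hMA
  have hn0 : (0 : ℝ) < A.card := by linarith
  have hpr : (0 : ℝ) < p := by exact_mod_cast hp.pos
  have hqr : (0 : ℝ) < q := by exact_mod_cast hq.pos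
  have hnp : (A.card : ℝ) ≤ 23 / 10 * p := by
    apply ar_n p q A.card ξ hpr hn0 hξ0 hξ1 hqp
    rw [← Nat.cast_mul]
    exact hn5
  have hp100r : (100 : ℝ) ≤ p := by linarith
  have hp100 : 100 ≤ p := by exact_mod_cast hp100r
  have hkr : (1 : ℝ) ≤ k := by exact_mod_cast hk
  have hrho0 : 0 ≤ rho := by
    have : 0 ≤ (1 - δ / 8) * (A.card : ℝ) := mul_nonneg (by linarith) hn0.le
    linarith
  rw [Nat.cast_mul] at hkc
  rcases card_sub p q hp hq K with h | h | h | h
  · -- the progression case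
    right
    have hKbot : K = ⊥ := AddSubgroup.eq_bot_of_card_eq _ h
    have hcov' : ∀ t ∈ R, ∃ j : ℤ, |j| ≤ k ∧ t = ((j : ℤ) : ZMod (p * q)) * g := by
      intro t ht
      obtain ⟨j, hj1, hj2, hj3⟩ := hcov t ht
      refine ⟨j, hj1, ?_⟩
      rw [hKbot, AddSubgroup.mem_bot, sub_eq_zero, zsmul_eq_mul] at hj2
      exact hj2
    have hRpos : 0 < R.card := by
      have h1 : (0 : ℝ) < R.card := by
        have : 0 < (1 - δ / 8) * (A.card : ℝ) := mul_pos (by linarith) hn0
        linarith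
      exact_mod_cast h1
    obtain ⟨a0, ha0⟩ := Finset.card_pos.1 hRpos
    have hg : IsUnit g := by
      obtain ⟨j, hj1, hj2⟩ := hcov' a0 ha0
      have h1 := hunit a0 (hRA ha0)
      rw [hj2] at h1
      exact isUnit_of_mul_isUnit_right h1
    obtain ⟨u, rfl⟩ := hg
    refine ⟨(↑u⁻¹ : ZMod (p * q)), R, k, Units.isUnit _, hRA, ?_, ?_, ?_⟩
    · have h1 : (1 - ε) * (A.card : ℝ) ≤ (1 - δ / 8) * A.card := by
        apply mul_le_mul_of_nonneg_right _ hn0.le
        rw [hδ]
        linarith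
      linarith
    · rw [h, Nat.cast_one, mul_one] at hkc
      exact sa_final ε δ τ rho A.card k hδ hε (by linarith) hτ hrho2 hn0 hkc
    · intro a ha
      obtain ⟨j, hj1, hj2⟩ := hcov' a ha
      have h1 : (↑u⁻¹ : ZMod (p * q)) * a = ((j : ℤ) : ZMod (p * q)) := by
        have h2 : (u : ZMod (p * q)) * (↑u⁻¹ : ZMod (p * q)) = 1 := Units.mul_inv u
        rw [hj2]
        linear_combination ((j : ℤ) : ZMod (p * q)) * h2
      rw [h1]
      exact (abs_valMinAbs_le (p * q) j).trans hj1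
  · -- card K = p
    left
    rw [h] at hkc
    have hk2 : k = 1 := by
      have h1 := ar_k δ τ rho A.card p p k hδ0 hδ1 hτ hrho2 hn0 hnp hpr le_rfl (by positivity) hkc
      have h2 : k < 2 := by exact_mod_cast h1
      omega
    subst hk2
    rw [Nat.cast_one, one_mul] at hkc
    have h1 := ar_R δ τ rho p hδ0 hδ1 hτ hrho0 hkc
    refine case_coset p q p q hp hq hp3 hpq (Or.inl rfl) hq rfl ?_ hp100 A R hRA hunit K h g
      (by linarith) (by exact_mod_cast hcov)
    have : (1 + ξ) * (p : ℝ) ≤ 101 / 100 * p := mul_le_mul_of_nonneg_right (by linarith) hpr.le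
    linarith
  · -- card K = q
    left
    rw [h] at hkc
    have hpqr : (p : ℝ) ≤ q := by exact_mod_cast hpq
    have hk2 : k = 1 := by
      have h1 := ar_k δ τ rho A.card p q k hδ0 hδ1 hτ hrho2 hn0 hnp hpr hpqr (by positivity) hkc
      have h2 : k < 2 := by exact_mod_cast h1
      omega
    subst hk2
    rw [Nat.cast_one, one_mul] at hkc
    have h1 := ar_R δ τ rho q hδ0 hδ1 hτ hrho0 hkc
    refine case_coset p q q p hp hq hp3 hpq (Or.inr rfl) hp (mul_comm _ _) ?_ (by omega) A R hRA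
      hunit K h g (by linarith) (by exact_mod_cast hcov)
    linarith
  · exfalso
    rw [h] at hkc
    exact ar_full δ τ rho A.card _ hδ0 hδ1 hτ hrho2 (by linarith) hn5 k hkr hkc

end Pool.Agent.Helper774.PQ
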