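import Mathlib
import Pool.Agent.Helper774.PQ.Struct
import Pool.Agent.Helper774.PQ.StabA
import Pool.Agent.Helper774.PQ.End

set_option autoImplicit false
set_option linter.unusedSectionVars false

open Finset
open scoped Pointwise

namespace Pool.Agent.Helper774.PQ

open Pool.Agent.Helper398

theorem num_u (ζ u N q : ℝ) (hζ : 0 < ζ) (hu : 0 ≤ u) (h1 : u ^ 2 ≤ 1152 * q) (hq : q ≤ N)
    (hN : 2312 / ζ ^ 2 ≤ N) (hN1 : 1 ≤ N) : u + 2 ≤ ζ * N := by
  rw [div_le_iff₀ (by positivity)] at hN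
  have h2 : (u + 2) ^ 2 ≤ (ζ * N) ^ 2 := by
    have h3 : (u + 2) ^ 2 ≤ 2 * u ^ 2 + 8 := by nlinarith [sq_nonneg (u - 2)]
    have h4 : 2312 * N ≤ N * ζ ^ 2 * N := mul_le_mul_of_nonneg_right hN (by linarith)
    have h5 : (ζ * N) ^ 2 = N * ζ ^ 2 * N := by ring
    rw [h5]
    linarith
  exact le_of_sq_le_sq h2 (by positivity)

theorem num_m (ξ x N P : ℝ) (hξ : 0 < ξ) (hξ1 : ξ ≤ 1 / 100) (hN : 0 ≤ N) (hP : 4 * P ≤ N ^ 2)
    (hx : (1 - ξ / 4) * N ≤ x) : P ≤ (1 + ξ) * (x ^ 2 / 4) := by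
  have h1 : ((1 - ξ / 4) * N) ^ 2 ≤ x ^ 2 := by
    apply pow_le_pow_left₀
    · apply mul_nonneg (by linarith) hN
    · exact hx
  have h2 : 1 ≤ (1 + ξ) * (1 - ξ / 4) ^ 2 := by nlinarith [sq_nonneg ξ, mul_pos hξ hξ]
  have h3 : N ^ 2 ≤ (1 + ξ) * ((1 - ξ / 4) * N) ^ 2 := by
    have h4 : 1 * N ^ 2 ≤ (1 + ξ) * (1 - ξ / 4) ^ 2 * N ^ 2 :=
      mul_le_mul_of_nonneg_right h2 (sq_nonneg N)
    linarith
  have h5 : (1 + ξ) * ((1 - ξ / 4) * N) ^ 2 ≤ (1 + ξ) * x ^ 2 :=
    mul_le_mul_of_nonneg_left h1 (by linarith)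
  linarith

theorem num_q (ξ p : ℝ) (hξ : 0 < ξ) (hp : 2 ≤ p) (hp2 : 9 / ξ ^ 2 ≤ p) (q : ℝ)
    (hq : q ≤ p + 2 * Real.sqrt (p - 2) + 1) : q ≤ (1 + ξ) * p := by
  rw [div_le_iff₀ (by positivity)] at hp2
  have h1 : Real.sqrt (p - 2) ≤ Real.sqrt p := Real.sqrt_le_sqrt (by linarith)
  have h2 : 1 ≤ Real.sqrt p := by
    rw [Real.one_le_sqrt]
    linarith
  have h3 : 3 * Real.sqrt p ≤ ξ * p := by
    have h4 : (3 * Real.sqrt p) ^ 2 ≤ (ξ * p) ^ 2 := by
      rw [mul_pow, Real.sq_sqrt (by linarith)]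
      have h5 : 9 * p ≤ p * ξ ^ 2 * p := mul_le_mul_of_nonneg_right hp2 (by linarith)
      have h6 : (ξ * p) ^ 2 = p * ξ ^ 2 * p := by ring
      rw [h6]
      linarith
    exact le_of_sq_le_sq h4 (by positivity)
  linarith

theorem main : ∃ p₀ : ℕ, ∀ p q : ℕ, p.Prime → q.Prime → p₀ < p → p ≤ q →
    q ≤ p + ⌊2 * Real.sqrt ((p : ℝ) - 2)⌋₊ + 1 →
    ∀ A : Finset (ZMod (p * q)), A.card = p + q - 1 →
    ((∃ x : ZMod (p * q), ∀ B ⊆ A, B.sum id ≠ x) ↔
      ∃ b : ZMod (p * q), IsUnit b ∧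
        ∑ y ∈ A.image (fun a => b * a), |ZMod.valMinAbs y| ≤ ((p * q : ℕ) : ℤ) - 2) := by
  obtain ⟨ξ, hξ0, hξ1, M, hM⟩ := struct_pq (1 / 200) (by norm_num) (by norm_num)
  refine ⟨M + 4000 + ⌈2312 / (ξ / 4) ^ 2⌉₊ + ⌈9 / ξ ^ 2⌉₊ +
    ⌈2312 / (1 / 1000 : ℝ) ^ 2⌉₊, ?_⟩
  intro p q hp hq hp0 hpq hqp A hA
  have : NeZero (p * q) := ⟨(Nat.mul_pos hp.pos hq.pos).ne'⟩
  constructor
  · rintro ⟨x, hx⟩
    have hne : A.subsetSum ≠ univ := by
      intro h
      have h1 := Finset.mem_univ x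
      rw [← h, Finset.mem_subsetSum_iff] at h1
      obtain ⟨B, hB, h2⟩ := h1
      exact hx B hB h2
    have hNS := ns_erase p q hp hq A (by omega) hne
    classical
    obtain ⟨A', hA'⟩ : ∃ A', A' = (A.erase 0).filter (fun a => IsUnit a) := ⟨_, rfl⟩
    have hA'A : A' ⊆ A := by
      rw [hA']; exact (Finset.filter_subset _ _).trans (Finset.erase_subset _ _)
    have hfew := few_nonunits p q hp hq hpq (A.erase 0) hNS
    have hsplit := Finset.card_filter_add_card_filter_not (s := A.erase 0) (fun a => IsUnit a)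
    rw [← hA'] at hsplit
    obtain ⟨u, hu⟩ : ∃ u, u = ((A.erase 0).filter (fun a => ¬ IsUnit a)).card := ⟨_, rfl⟩
    rw [← hu] at hfew hsplit
    have herase : A.card ≤ (A.erase 0).card + 1 := by
      have := Finset.pred_card_le_card_erase (s := A) (a := (0 : ZMod (p * q)))
      omega
    -- real sizes
    obtain ⟨N, hN⟩ : ∃ N : ℝ, N = (p : ℝ) + q := ⟨_, rfl⟩
    have hp1 : (1 : ℝ) ≤ p := by exact_mod_cast hp.one_lt.le
    have hq1 : (1 : ℝ) ≤ q := by exact_mod_cast hq.one_lt.le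
    have hAN : (A.card : ℝ) = N - 1 := by
      have : A.card + 1 = p + q := by omega
      have h2 : ((A.card + 1 : ℕ) : ℝ) = ((p + q : ℕ) : ℝ) := by rw [this]
      push_cast at h2
      linarith
    have hu2 : (u : ℝ) ^ 2 ≤ 1152 * (q : ℝ) := by exact_mod_cast hfew
    have hA'c : N - 2 - u ≤ (A'.card : ℝ) := by
      have h1 : A.card ≤ A'.card + u + 1 := by omega
      have h2 : (A.card : ℝ) ≤ A'.card + u + 1 := by exact_mod_cast h1
      linarith
    have hceil1 : 2312 / (ξ / 4) ^ 2 ≤ (p : ℝ) :=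
      le_trans (Nat.le_ceil _) (by exact_mod_cast (by omega : ⌈2312 / (ξ / 4) ^ 2⌉₊ ≤ p))
    have hceil2 : 9 / ξ ^ 2 ≤ (p : ℝ) :=
      le_trans (Nat.le_ceil _) (by exact_mod_cast (by omega : ⌈9 / ξ ^ 2⌉₊ ≤ p))
    have hceil3 : 2312 / (1 / 1000 : ℝ) ^ 2 ≤ (p : ℝ) :=
      le_trans (Nat.le_ceil _)
        (by exact_mod_cast (by omega : ⌈2312 / (1 / 1000 : ℝ) ^ 2⌉₊ ≤ p))
    have hu3 := num_u (ξ / 4) u N q (by positivity) (Nat.cast_nonneg _) hu2 (by linarith)
      (by linarith) (by linarith)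
    have hu4 := num_u (1 / 1000) u N q (by positivity) (Nat.cast_nonneg _) hu2 (by linarith)
      (by linarith) (by linarith)
    have h4 : 4 * (p * q) ≤ A.card * A.card + 2 * A.card + 8 := by
      have h5 : (p + q) * (p + q) = A.card * A.card + 2 * A.card + 1 := by
        have : p + q = A.card + 1 := by omega
        rw [this]; ring
      have h6 : 4 * (p * q) ≤ (p + q) * (p + q) := by
        nlinarith [sq_nonneg ((p : ℤ) - q)]
      omega
    have hqξ : (q : ℝ) ≤ (1 + ξ) * p := by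
      apply num_q ξ p hξ0 (by exact_mod_cast hp.two_le) hceil2
      have h5 : (q : ℝ) ≤ p + (⌊2 * Real.sqrt ((p : ℝ) - 2)⌋₊ : ℝ) + 1 := by exact_mod_cast hqp
      have h6 : (⌊2 * Real.sqrt ((p : ℝ) - 2)⌋₊ : ℝ) ≤ 2 * Real.sqrt ((p : ℝ) - 2) :=
        Nat.floor_le (by positivity)
      linarith
    have hmξ : ((p * q : ℕ) : ℝ) ≤ (1 + ξ) * ((A'.card : ℝ) ^ 2 / 4) := by
      apply num_m ξ A'.card N _ hξ0 hξ1 (by linarith)
      · push_cast
        rw [hN]
        nlinarith [sq_nonneg ((p : ℝ) - q)]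
      · linarith
    have hMA' : M ≤ A'.card := by
      have h5 : (M : ℝ) ≤ A'.card := by
        have h6 : (M : ℝ) ≤ p := by exact_mod_cast (by omega : M ≤ p)
        have h7 : (p : ℝ) ≤ q := by exact_mod_cast hpq
        linarith
      exact_mod_cast h5
    rcases hM p q hp hq (by omega) hpq hqξ A' (hNS.mono (by rw [hA']; exact Finset.filter_subset _ _))
      (by intro a ha; rw [hA', Finset.mem_filter] at ha; exact ha.2) hMA' hmξ with h | h
    · exfalso
      apply hne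
      rw [Finset.eq_univ_iff_forall]
      intro y
      apply Finset.subsetSum_mono hA'A
      rw [h]
      exact Finset.mem_univ y
    · obtain ⟨b, R, L, hb, hRA', hRc, hL, hRL⟩ := h
      refine ⟨b, hb, ?_⟩
      by_contra hcon
      push Not at hcon
      have hinj : Function.Injective (fun a : ZMod (p * q) => b * a) :=
        fun x y h => hb.mul_left_cancel h
      have hA'le : (A'.card : ℝ) ≤ A.card := by exact_mod_cast Finset.card_le_card hA'A
      obtain ⟨B', hB', hB's⟩ := endgame_gen (p := p * q) A.card (A.card / 20) L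
        (A.image (fun a => b * a)) (R.image (fun a => b * a))
        (Finset.image_subset_image (hRA'.trans hA'A))
        (by
          intro h
          rw [Finset.mem_image] at h
          obtain ⟨a, ha, h⟩ := h
          have h5 : a = 0 := by
            apply hb.mul_left_cancel
            rw [h, mul_zero]
          have h6 := hRA' ha
          rw [hA', Finset.mem_filter, Finset.mem_erase] at h6
          exact h6.1.1 h5)
        (by
          intro y hy
          rw [Finset.mem_image] at hy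
          obtain ⟨a, ha, rfl⟩ := hy
          exact hRL a ha)
        (Finset.card_image_of_injective _ hinj)
        h4 (by omega) (by omega)
        (by
          rw [Finset.card_image_of_injective _ hinj]
          have h5 : 99 * (A.card : ℝ) ≤ 100 * (R.card : ℝ) := by
            rw [hAN]
            linarith
          exact_mod_cast h5)
        (by
          have h5 : 200 * (L : ℝ) ≤ 101 * (A.card : ℝ) := by linarith
          exact_mod_cast h5)
        (by omega)
        (by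
          have h5 : A.card / 20 ≤ A.card := Nat.div_le_self _ _
          have h6 : A.card ≤ p * q := by
            have := Finset.card_le_univ A
            rwa [ZMod.card] at this
          omega)
        (by omega) (b * x)
      obtain ⟨B, hBA, hBs⟩ := sums_undilate_gen b hb A B' hB'
      rw [hB's] at hBs
      exact hx B hBA (hb.mul_left_cancel hBs).symm
  · rintro ⟨b, hb, h⟩
    obtain ⟨x, hx⟩ := easy_gen _ h
    obtain ⟨u, rfl⟩ := hb
    refine ⟨(↑u⁻¹ : ZMod (p * q)) * x, ?_⟩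
    intro B hB heq
    obtain ⟨B', hB', hB's⟩ := sums_dilate_gen (u : ZMod (p * q)) u.isUnit A B hB
    apply hx B' hB'
    rw [hB's, heq, ← mul_assoc, Units.mul_inv, one_mul]

end Pool.Agent.Helper774.PQ
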